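import Pool.Agent.Q29.RS.Defs

open MvPolynomial

namespace Pool.Agent.Q29.RS

section general
variable {σ A : Type*} [CommRing A]

attribute [local instance] MvPolynomial.gradedAlgebra

theorem hc_mul_right {G : MvPolynomial σ A} {b : ℕ} (hG : G.IsHomogeneous b)
    (s : MvPolynomial σ A) (n : ℕ) :
    homogeneousComponent n (s * G) = if b ≤ n then homogeneousComponent (n - b) s * G else 0 := by
  have key : ∀ (p : MvPolynomial σ A) (i : ℕ),
      (DirectSum.decompose (homogeneousSubmodule σ A) p i : MvPolynomial σ A)
        = homogeneousComponent i p := fun p i => decomposition.decompose'_apply p i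
  have h := DirectSum.coe_decompose_mul_of_right_mem (𝒜 := homogeneousSubmodule σ A) (a := s)
    (b := G) (i := b) n hG
  rw [key] at h
  rw [h]
  split_ifs with hb
  · rw [key]
  · rfl

end general

variable {k : Type*} [Field k]

/-- the part of degree `i` in `x, y, z` -/
noncomputable def xcomp (i : ℕ) (F : S k) : S k :=
  ∑ m ∈ F.support, monomial m (homogeneousComponent i (F.coeff m))

theorem coeff_xcomp (i : ℕ) (F : S k) (m : Fin 3 →₀ ℕ) :
    coeff m (xcomp i F) = homogeneousComponent i (coeff m F) := by
  classical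
  unfold xcomp
  rw [coeff_sum]
  simp only [coeff_monomial]
  rw [Finset.sum_ite_eq' F.support m]
  split_ifs with h
  · rfl
  · rw [MvPolynomial.notMem_support_iff.1 h, map_zero]

/-- the bihomogeneous part of bidegree `(i, j)` -/
noncomputable def comp (i j : ℕ) (F : S k) : S k := xcomp i (homogeneousComponent j F)

theorem coeff_comp (i j : ℕ) (F : S k) (m : Fin 3 →₀ ℕ) :
    coeff m (comp i j F) = if m.degree = j then homogeneousComponent i (coeff m F) else 0 := by
  unfold comp
  rw [coeff_xcomp, coeff_homogeneousComponent]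
  split_ifs with h
  · rfl
  · rw [map_zero]

theorem comp_add (i j : ℕ) (F G : S k) : comp i j (F + G) = comp i j F + comp i j G := by
  ext1 m
  rw [coeff_add, coeff_comp, coeff_comp, coeff_comp, coeff_add, map_add]
  split_ifs <;> simp

theorem comp_zero (i j : ℕ) : comp i j (0 : S k) = 0 := by
  ext1 m
  rw [coeff_comp]
  simp

theorem comp_sum {ι : Type*} (s : Finset ι) (F : ι → S k) (i j : ℕ) :
    comp i j (∑ a ∈ s, F a) = ∑ a ∈ s, comp i j (F a) := by
  classical
  induction s using Finset.induction_on with
  | empty => simp [comp_zero]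
  | insert a s ha ih => rw [Finset.sum_insert ha, Finset.sum_insert ha, comp_add, ih]

theorem isBihom_comp (i j : ℕ) (F : S k) : IsBihom (comp i j F) i j := by
  constructor
  · intro m hm
    have h : m.degree = j := by
      by_contra h
      apply hm
      rw [coeff_comp, if_neg h]
    rw [← h, Finsupp.degree_eq_weight_one]
    rfl
  · intro m
    rw [coeff_comp]
    split_ifs
    · exact homogeneousComponent_isHomogeneous i _
    · exact isHomogeneous_zero _ _ _

theorem IsBihom.degree_eq {F : S k} {i j : ℕ} (h : IsBihom F i j) {m : Fin 3 →₀ ℕ}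
    (hm : coeff m F ≠ 0) : m.degree = j := by
  have := h.1 hm
  rw [← this, Finsupp.degree_eq_weight_one]
  rfl

theorem IsBihom.comp_eq {F : S k} {i j : ℕ} (h : IsBihom F i j) : comp i j F = F := by
  ext1 m
  rw [coeff_comp]
  by_cases hm : coeff m F = 0
  · rw [hm]; simp
  · rw [if_pos (h.degree_eq hm), homogeneousComponent_eq_self (h.2 m)]

theorem xcomp_mul {G : S k} {a : ℕ} (hG : ∀ m, (G.coeff m).IsHomogeneous a) (i : ℕ) (s : S k) :
    xcomp i (s * G) = if a ≤ i then xcomp (i - a) s * G else 0 := by
  classical
  ext1 m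
  rw [coeff_xcomp, coeff_mul, map_sum]
  rw [Finset.sum_congr rfl fun x _ => hc_mul_right (hG x.2) (coeff x.1 s) i]
  split_ifs with hai
  · rw [coeff_mul]
    exact Finset.sum_congr rfl fun x _ => by rw [coeff_xcomp]
  · simp

theorem comp_mul {G : S k} {a b : ℕ} (hG : IsBihom G a b) (i j : ℕ) (s : S k) :
    comp i j (s * G) = if a ≤ i ∧ b ≤ j then comp (i - a) (j - b) s * G else 0 := by
  unfold comp
  rw [hc_mul_right hG.1]
  by_cases hb : b ≤ j
  · rw [if_pos hb, xcomp_mul hG.2]
    by_cases ha : a ≤ i
    · rw [if_pos ha, if_pos ⟨ha, hb⟩]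
    · rw [if_neg ha, if_neg fun h => ha h.1]
  · rw [if_neg hb, if_neg fun h => hb h.2]
    ext1 m
    rw [coeff_xcomp]
    simp

theorem IsBihom.unique {F : S k} {i j i' j' : ℕ} (h : IsBihom F i j) (h' : IsBihom F i' j')
    (h0 : F ≠ 0) : i = i' ∧ j = j' := by
  obtain ⟨m, hm⟩ := MvPolynomial.ne_zero_iff.1 h0
  refine ⟨?_, ?_⟩
  · exact (h.2 m).inj_right (h'.2 m) hm
  · rw [← h.degree_eq hm, ← h'.degree_eq hm]

theorem IsBihom.exists_scalar {F : S k} (h : IsBihom F 0 0) : ∃ c : k, F = C (C c) := by
  have h1 : F = C (coeff 0 F) := by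
    rw [← homogeneousComponent_zero, homogeneousComponent_eq_self h.1]
  have h2 : coeff 0 F = C (coeff 0 (coeff 0 F)) := by
    rw [← homogeneousComponent_zero, homogeneousComponent_eq_self (h.2 0)]
  refine ⟨coeff 0 (coeff 0 F), ?_⟩
  rw [← h2, ← h1]

/-- every element is the sum of its bihomogeneous parts -/
theorem sum_comp (F : S k) : ∃ N M : ℕ, F = ∑ j ∈ Finset.range N, ∑ i ∈ Finset.range M,
    comp i j F := by
  classical
  refine ⟨F.totalDegree + 1, (F.support.sup fun m => (F.coeff m).totalDegree) + 1, ?_⟩
  ext1 m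
  rw [coeff_sum]
  simp only [coeff_sum, coeff_comp]
  by_cases hm : coeff m F = 0
  · rw [hm]; simp
  · have hmem : m ∈ F.support := MvPolynomial.mem_support_iff.2 hm
    have hdeg : m.degree < F.totalDegree + 1 := by
      have := MvPolynomial.le_totalDegree hmem
      have h2 : m.degree = m.sum fun _ e => e := by
        rw [Finsupp.degree_eq_sum, Finsupp.sum_fintype]; intro i; rfl
      omega
    have hx : (F.coeff m).totalDegree < (F.support.sup fun m => (F.coeff m).totalDegree) + 1 :=
      Nat.lt_succ_of_le (Finset.le_sup (f := fun m => (F.coeff m).totalDegree) hmem)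
    have hs : ∑ i ∈ Finset.range ((F.support.sup fun m => (F.coeff m).totalDegree) + 1),
        homogeneousComponent i (coeff m F) = coeff m F := by
      conv_rhs => rw [← sum_homogeneousComponent (coeff m F)]
      symm
      apply Finset.sum_subset
      · intro i hi
        rw [Finset.mem_range] at hi ⊢
        omega
      · intro i _ hi
        rw [Finset.mem_range, not_lt] at hi
        exact homogeneousComponent_eq_zero _ _ (by omega)
    have h3 : ∀ j ∈ Finset.range (F.totalDegree + 1),
        (∑ i ∈ Finset.range ((F.support.sup fun m => (F.coeff m).totalDegree) + 1),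
          if m.degree = j then homogeneousComponent i (coeff m F) else 0)
        = if m.degree = j then coeff m F else 0 := by
      intro j _
      split_ifs with h
      · exact hs
      · simp
    rw [Finset.sum_congr rfl h3, Finset.sum_ite_eq (Finset.range (F.totalDegree + 1)) m.degree,
      if_pos (Finset.mem_range.2 hdeg)]

/-! ### the Rees ideal -/

variable (φ : Matrix (Fin 3) (Fin 2) (R k))

/-- evaluation at the minors -/
noncomputable def evm : S k →ₐ[R k] R k := aeval (minor φ)

theorem coeff_reesMap (F : S k) (j : ℕ) :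
    (reesMap φ F).coeff j = evm φ (homogeneousComponent j F) := by
  classical
  induction F using MvPolynomial.induction_on' with
  | monomial m r =>
    have h1 : reesMap φ (monomial m r) =
        Polynomial.C (r * ∏ i, minor φ i ^ m i) * Polynomial.X ^ m.degree := by
      unfold reesMap
      rw [aeval_monomial, Finsupp.prod_fintype _ _ (by intro i; simp)]
      rw [Polynomial.algebraMap_eq, Fin.prod_univ_three, Fin.prod_univ_three,
        Finsupp.degree_eq_sum, Fin.sum_univ_three]
      simp only [mul_pow, map_mul, map_pow, pow_add]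
      ring
    rw [h1, Polynomial.coeff_C_mul, Polynomial.coeff_X_pow,
      homogeneousComponent_of_mem (n := m.degree)]
    · by_cases h : j = m.degree
      · rw [if_pos h, if_pos h]
        unfold evm
        rw [aeval_monomial, Finsupp.prod_fintype _ _ (by intro i; simp)]
        simp
      · rw [if_neg h, if_neg h]; simp
    · exact isHomogeneous_monomial _ rfl
  | add p q hp hq => rw [map_add, Polynomial.coeff_add, hp, hq, map_add, map_add]

theorem mem_reesIdeal (F : S k) :
    F ∈ reesIdeal φ ↔ ∀ j, evm φ (homogeneousComponent j F) = 0 := by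
  unfold reesIdeal
  rw [RingHom.mem_ker]
  constructor
  · intro h j
    rw [← coeff_reesMap]
    have : reesMap φ F = 0 := h
    rw [this]; simp
  · intro h
    show reesMap φ F = 0
    ext1 j
    rw [coeff_reesMap, h]; simp

theorem mem_reesIdeal_of_hom {F : S k} {j : ℕ} (hF : F.IsHomogeneous j) :
    F ∈ reesIdeal φ ↔ evm φ F = 0 := by
  rw [mem_reesIdeal]
  constructor
  · intro h
    have := h j
    rwa [homogeneousComponent_eq_self hF] at this
  · intro h i
    rw [homogeneousComponent_of_mem hF]
    split_ifs
    · exact h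
    · simp

theorem evm_apply (G : S k) :
    evm φ G = ∑ m ∈ G.support, coeff m G * ∏ i, minor φ i ^ m i := by
  unfold evm
  rw [aeval_def, eval₂_eq']
  rfl

theorem evm_xcomp {D : ℕ} (hD : ∀ i, (minor φ i).IsHomogeneous D) {G : S k} {j : ℕ}
    (hG : G.IsHomogeneous j) (i : ℕ) :
    evm φ (xcomp i G) = homogeneousComponent (i + D * j) (evm φ G) := by
  classical
  have hprod : ∀ m ∈ G.support, (∏ i, minor φ i ^ m i).IsHomogeneous (D * j) := by
    intro m hm
    have h1 : m.degree = j := by
      have := hG (MvPolynomial.mem_support_iff.1 hm)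
      rw [← this, Finsupp.degree_eq_weight_one]
      rfl
    have h2 : (∏ i, minor φ i ^ m i).IsHomogeneous (∑ i, D * m i) :=
      IsHomogeneous.prod _ _ _ fun i _ => (hD i).pow _
    have h3 : ∑ i, D * m i = D * j := by
      rw [← Finset.mul_sum, ← h1, Finsupp.degree_eq_sum]
    rw [← h3]; exact h2
  rw [evm_apply φ G, map_sum]
  unfold xcomp
  rw [map_sum]
  apply Finset.sum_congr rfl
  intro m hm
  rw [hc_mul_right (hprod m hm), if_pos (Nat.le_add_left _ _), Nat.add_sub_cancel]
  unfold evm
  rw [aeval_monomial, Finsupp.prod_fintype _ _ (by intro i; simp)]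
  rfl

theorem comp_mem {D : ℕ} (hD : ∀ i, (minor φ i).IsHomogeneous D) {F : S k}
    (hF : F ∈ reesIdeal φ) (i j : ℕ) : comp i j F ∈ reesIdeal φ := by
  rw [mem_reesIdeal_of_hom φ (isBihom_comp i j F).1]
  unfold comp
  rw [evm_xcomp φ hD (homogeneousComponent_isHomogeneous j F), (mem_reesIdeal φ F).1 hF j, map_zero]

end Pool.Agent.Q29.RS
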