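import Mathlib

/-! Definitions for the Rees ideal of the 2-minors of a 3 by 2 matrix and its Sylvester forms. -/

open MvPolynomial

namespace Pool.Agent.Q29.RS

/-- the ring `k[x, y, z]` -/
abbrev R (k : Type*) [Field k] := MvPolynomial (Fin 3) k

/-- the ring `k[x, y, z][t₁, t₂, t₃]` -/
abbrev S (k : Type*) [Field k] := MvPolynomial (Fin 3) (R k)

variable {k : Type*} [Field k]

/-- `F` is bihomogeneous: of degree `i` in `x, y, z` and of degree `j` in the `t`'s -/
def IsBihom (F : S k) (i j : ℕ) : Prop := F.IsHomogeneous j ∧ ∀ m, (F.coeff m).IsHomogeneous i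

/-- the signed 2-minors -/
noncomputable def minor (φ : Matrix (Fin 3) (Fin 2) (R k)) : Fin 3 → R k :=
  ![φ 1 0 * φ 2 1 - φ 2 0 * φ 1 1, φ 2 0 * φ 0 1 - φ 0 0 * φ 2 1, φ 0 0 * φ 1 1 - φ 1 0 * φ 0 1]

/-- the map `S → R[s]`, `tᵢ ↦ Δᵢ s` -/
noncomputable def reesMap (φ : Matrix (Fin 3) (Fin 2) (R k)) : S k →ₐ[R k] Polynomial (R k) :=
  aeval fun i => Polynomial.C (minor φ i) * Polynomial.X

/-- the defining ideal of the Rees algebra of the ideal of 2-minors -/
noncomputable def reesIdeal (φ : Matrix (Fin 3) (Fin 2) (R k)) : Ideal (S k) :=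
  RingHom.ker (reesMap φ)

/-- the form `∑ᵢ a_{ij} tᵢ` of column `j` -/
noncomputable def colForm (φ : Matrix (Fin 3) (Fin 2) (R k)) (j : Fin 2) : S k :=
  ∑ i, C (φ i j) * X i

/-- `H` is a Sylvester form of the pairwise different bihomogeneous elements `F₁, …, F_s` of the
ideal `J` with respect to the forms `a₁, …, a_s` of positive degree -/
def IsSylvesterForm (J : Ideal (S k)) {s : ℕ} (F : Fin s → S k) (a : Fin s → R k) (H : S k) :
    Prop :=
  0 < s ∧ Function.Injective F ∧
  ∃ (p q d : Fin s → ℕ) (c : Matrix (Fin s) (Fin s) (S k)),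
    (∀ i, F i ∈ J ∧ IsBihom (F i) (p i) (q i)) ∧
    (∀ j, 0 < d j ∧ (a j).IsHomogeneous (d j)) ∧
    (∀ i j, c i j = 0 ∨ (d j ≤ p i ∧ IsBihom (c i j) (p i - d j) (q i))) ∧
    (∀ i, F i = ∑ j, c i j * C (a j)) ∧ H = c.det

/-- `f`, `g` and everything that is obtained from them by repeatedly taking Sylvester forms -/
inductive Obtained (φ : Matrix (Fin 3) (Fin 2) (R k)) : S k → Prop
  | left : Obtained φ (colForm φ 0)
  | right : Obtained φ (colForm φ 1)
  | sylvester {s : ℕ} (F : Fin s → S k) (a : Fin s → R k) (H : S k)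
      (hF : ∀ i, Obtained φ (F i)) (hH : IsSylvesterForm (reesIdeal φ) F a H) : Obtained φ H

/-- `H` is an iterated Sylvester form starting with `{f, g}` -/
def IsIteratedSylvester (φ : Matrix (Fin 3) (Fin 2) (R k)) (H : S k) : Prop :=
  ∃ (s : ℕ) (F : Fin s → S k) (a : Fin s → R k),
    (∀ i, Obtained φ (F i)) ∧ IsSylvesterForm (reesIdeal φ) F a H

/-- `G` is a minimal set of bihomogeneous generators of `J` -/
def IsMinimalGenerating (J : Ideal (S k)) (G : Finset (S k)) : Prop :=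
  (∀ F ∈ G, ∃ i j, IsBihom F i j) ∧ Ideal.span (G : Set (S k)) = J ∧
    ∀ G' : Finset (S k), G' ⊂ G → Ideal.span (G' : Set (S k)) ≠ J

/-- the ideal of 2-minors -/
noncomputable def minorIdeal (φ : Matrix (Fin 3) (Fin 2) (R k)) : Ideal (R k) :=
  Ideal.span (Set.range (minor φ))

/-- the ideal of entries -/
noncomputable def entryIdeal (φ : Matrix (Fin 3) (Fin 2) (R k)) : Ideal (R k) :=
  Ideal.span (Set.range fun p : Fin 3 × Fin 2 => φ p.1 p.2)

/-- `r` lies in the intersection of the primary components of codimension two of `J`: for every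
minimal prime `P` of `J` of height two, `r` becomes an element of `J` after localizing at `P` -/
def InCodimTwoPart (J : Ideal (R k)) (r : R k) : Prop :=
  ∀ P ∈ J.minimalPrimes, P.height = 2 → ∃ s, s ∉ P ∧ s * r ∈ J

/-- the standing assumptions on `φ`, with column degrees `d₁ ≤ d₂` -/
structure IsAdmissible (φ : Matrix (Fin 3) (Fin 2) (R k)) (d₁ d₂ : ℕ) : Prop where
  two_le : 2 ≤ d₁
  le : d₁ ≤ d₂
  left : ∀ i, (φ i 0).IsHomogeneous d₁
  right : ∀ i, (φ i 1).IsHomogeneous d₂
  minors : (minorIdeal φ).height = 2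
  entries : (entryIdeal φ).height = 2
  component : ∃ (u v : R k) (a b : ℕ), u.IsHomogeneous a ∧ v.IsHomogeneous b ∧
    RingTheory.Sequence.IsRegular (R k) [u, v] ∧
    ∀ r, r ∈ Ideal.span {u, v} ↔ InCodimTwoPart (entryIdeal φ) r

end Pool.Agent.Q29.RS
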