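import Pool.Agent.Q29.RS.Phi

open MvPolynomial

namespace Pool.Agent.Q29.RS

variable {k : Type*} [Field k]

/-- first Sylvester form, of `{f, g}` with respect to `{x², yz}` -/
noncomputable def hh (k : Type*) [Field k] : S k :=
  (C (X 0) * X 0 + C (X 2) * X 1) * (C (X 1) * X 0)
    - (C (X 2) * X 2) * (C (X 1) * X 1 + C (X 0) * X 2)

/-- Sylvester form of `{f, h}` with respect to `{x, yz}` -/
noncomputable def E₁ (k : Type*) [Field k] : S k :=
  (C (X 0) ^ 2 * X 0 + C (X 0) * C (X 2) * X 1) * (X 0 * X 1 - X 1 * X 2)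
    - (C (X 2) * X 2) * (C (X 1) * X 0 ^ 2 - C (X 2) * X 2 ^ 2)

/-- Sylvester form of `{g, h}` with respect to `{x, yz}` -/
noncomputable def E₂ (k : Type*) [Field k] : S k :=
  (C (X 0) * C (X 1) * X 1 + C (X 0) ^ 2 * X 2) * (X 0 * X 1 - X 1 * X 2)
    - (C (X 1) * X 0) * (C (X 1) * X 0 ^ 2 - C (X 2) * X 2 ^ 2)

theorem col0 : colForm (phi k) 0 =
    C (X 0) ^ 3 * X 0 + C (X 0) ^ 2 * C (X 2) * X 1 + C (X 1) * C (X 2) ^ 2 * X 2 := by
  unfold colForm
  rw [Fin.sum_univ_three]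
  simp [phi]

theorem col1 : colForm (phi k) 1 =
    C (X 1) ^ 2 * C (X 2) * X 0 + C (X 0) ^ 2 * C (X 1) * X 1 + C (X 0) ^ 3 * X 2 := by
  unfold colForm
  rw [Fin.sum_univ_three]
  simp [phi]

theorem bx (i : Fin 3) (n : ℕ) : IsBihom ((C (X i) : S k) ^ n) n 0 :=
  ((isBihom_x i).pow n).cast (by ring) (by ring)

theorem bt (i : Fin 3) (n : ℕ) : IsBihom ((X i : S k) ^ n) 0 n :=
  ((isBihom_t i).pow n).cast (by ring) (by ring)

theorem bi_f : IsBihom (colForm (phi k) 0) 3 1 := by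
  rw [col0]
  exact (((bx 0 3).mul (isBihom_t 0)).add (((bx 0 2).mul (isBihom_x 2)).mul (isBihom_t 1))).add
    (((isBihom_x 1).mul (bx 2 2)).mul (isBihom_t 2))

theorem bi_g : IsBihom (colForm (phi k) 1) 3 1 := by
  rw [col1]
  exact ((((bx 1 2).mul (isBihom_x 2)).mul (isBihom_t 0)).add
    (((bx 0 2).mul (isBihom_x 1)).mul (isBihom_t 1))).add ((bx 0 3).mul (isBihom_t 2))

theorem bi_h : IsBihom (hh k) 2 2 :=
  ((((isBihom_x 0).mul (isBihom_t 0)).add ((isBihom_x 2).mul (isBihom_t 1))).mul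
    ((isBihom_x 1).mul (isBihom_t 0))).sub (((isBihom_x 2).mul (isBihom_t 2)).mul
      (((isBihom_x 1).mul (isBihom_t 1)).add ((isBihom_x 0).mul (isBihom_t 2))))

theorem bi_q : IsBihom (C (X 1) * X 0 ^ 2 - C (X 2) * X 2 ^ 2 : S k) 1 2 :=
  ((isBihom_x 1).mul (bt 0 2)).sub ((isBihom_x 2).mul (bt 2 2))

theorem bi_r : IsBihom (X 0 * X 1 - X 1 * X 2 : S k) 0 2 :=
  ((isBihom_t 0).mul (isBihom_t 1)).sub ((isBihom_t 1).mul (isBihom_t 2))

theorem bi_p1 : IsBihom (C (X 0) ^ 2 * X 0 + C (X 0) * C (X 2) * X 1 : S k) 2 1 :=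
  ((bx 0 2).mul (isBihom_t 0)).add (((isBihom_x 0).mul (isBihom_x 2)).mul (isBihom_t 1))

theorem bi_p2 : IsBihom (C (X 0) * C (X 1) * X 1 + C (X 0) ^ 2 * X 2 : S k) 2 1 :=
  (((isBihom_x 0).mul (isBihom_x 1)).mul (isBihom_t 1)).add ((bx 0 2).mul (isBihom_t 2))

theorem bi_E₁ : IsBihom (E₁ k) 2 3 :=
  (bi_p1.mul bi_r).sub (((isBihom_x 2).mul (isBihom_t 2)).mul bi_q)

theorem bi_E₂ : IsBihom (E₂ k) 2 3 :=
  (bi_p2.mul bi_r).sub (((isBihom_x 1).mul (isBihom_t 0)).mul bi_q)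

theorem evm_C (r : R k) : evm (phi k) (C r) = r := by
  unfold evm; rw [aeval_C]; rfl

theorem evm_X (i : Fin 3) : evm (phi k) (X i) = minor (phi k) i := by
  unfold evm; rw [aeval_X]

theorem mem_f : colForm (phi k) 0 ∈ reesIdeal (phi k) := by
  rw [mem_reesIdeal_of_hom _ bi_f.1, col0]
  simp only [map_add, map_mul, map_pow, evm_C, evm_X, minor_zero, minor_one, minor_two]
  ring

theorem mem_g : colForm (phi k) 1 ∈ reesIdeal (phi k) := by
  rw [mem_reesIdeal_of_hom _ bi_g.1, col1]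
  simp only [map_add, map_mul, map_pow, evm_C, evm_X, minor_zero, minor_one, minor_two]
  ring

theorem mem_h : hh k ∈ reesIdeal (phi k) := by
  rw [mem_reesIdeal_of_hom _ bi_h.1, hh]
  simp only [map_add, map_sub, map_mul, evm_C, evm_X, minor_zero, minor_one, minor_two]
  ring

theorem mem_E₁ : E₁ k ∈ reesIdeal (phi k) := by
  rw [mem_reesIdeal_of_hom _ bi_E₁.1, E₁]
  simp only [map_add, map_sub, map_mul, map_pow, evm_C, evm_X, minor_zero, minor_one, minor_two]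
  ring

theorem mem_E₂ : E₂ k ∈ reesIdeal (phi k) := by
  rw [mem_reesIdeal_of_hom _ bi_E₂.1, E₂]
  simp only [map_add, map_sub, map_mul, map_pow, evm_C, evm_X, minor_zero, minor_one, minor_two]
  ring

/-- evaluation at a point of `k³ × k³` -/
noncomputable def pt (a b : Fin 3 → k) : S k →+* k :=
  eval₂Hom (MvPolynomial.eval a) b

theorem pt_C (a b : Fin 3 → k) (r : R k) : pt a b (C r) = MvPolynomial.eval a r := by
  simp [pt]

theorem pt_X (a b : Fin 3 → k) (i : Fin 3) : pt a b (X i) = b i := by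
  simp [pt]

theorem ne_f_g : colForm (phi k) 0 ≠ colForm (phi k) 1 := by
  intro h
  have := congrArg (pt ![1, 0, 0] ![1, 0, 0]) h
  rw [col0, col1] at this
  simp [pt_C, pt_X] at this

theorem ne_f_h : colForm (phi k) 0 ≠ hh k := by
  intro h
  have := congrArg (pt ![1, 0, 0] ![1, 0, 0]) h
  rw [col0, hh] at this
  simp [pt_C, pt_X] at this

theorem ne_g_h : colForm (phi k) 1 ≠ hh k := by
  intro h
  have := congrArg (pt ![1, 0, 0] ![0, 0, 1]) h
  rw [col1, hh] at this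
  simp [pt_C, pt_X] at this

theorem h_ne : hh k ≠ 0 := by
  intro h
  have := congrArg (pt ![1, 1, 0] ![1, 0, 0]) h
  rw [hh] at this
  simp [pt_C, pt_X] at this

theorem E₁_ne (l m : S k) : E₁ k ≠ l * hh k + m * E₂ k := by
  intro h
  have := congrArg (pt ![0, 0, 1] ![0, 0, 1]) h
  rw [map_add, map_mul, map_mul, E₁, E₂, hh] at this
  simp [pt_C, pt_X] at this

theorem E₂_ne (l m : S k) : E₂ k ≠ l * hh k + m * E₁ k := by
  intro h
  have := congrArg (pt ![0, 1, 0] ![1, 0, 0]) h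
  rw [map_add, map_mul, map_mul, E₁, E₂, hh] at this
  simp [pt_C, pt_X] at this

theorem cc_add (F G : S k) (u t : Mon) : cc (F + G) u t = cc F u t + cc G u t := by
  simp [cc]

theorem cc_CC (a : k) (F : S k) (u t : Mon) : cc (C (C a) * F) u t = a * cc F u t := by
  simp [cc]

theorem h_expand : hh k = C (monomial (fs (1, 1, 0)) 1) * monomial (fs (2, 0, 0)) 1
    + C (monomial (fs (0, 1, 1)) 1) * monomial (fs (1, 1, 0)) 1
    - C (monomial (fs (0, 1, 1)) 1) * monomial (fs (0, 1, 1)) 1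
    - C (monomial (fs (1, 0, 1)) 1) * monomial (fs (0, 0, 2)) 1 := by
  rw [hh]
  simp only [mX, map_mul, map_pow]
  ring

theorem cc_h : cc (hh k) (0, 1, 1) (0, 1, 1) = -1 := by
  have h1 : fs (2, 0, 0) ≠ fs (0, 1, 1) := fun h => absurd (fs_inj.1 h) (by decide)
  have h2 : fs (1, 1, 0) ≠ fs (0, 1, 1) := fun h => absurd (fs_inj.1 h) (by decide)
  have h3 : fs (0, 0, 2) ≠ fs (0, 1, 1) := fun h => absurd (fs_inj.1 h) (by decide)
  rw [cc, h_expand]
  simp only [coeff_sub, coeff_add, coeff_C_mul, coeff_monomial, if_neg h1, if_neg h2, if_neg h3,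
    if_true, mul_zero, mul_one, zero_add, sub_zero, zero_sub, coeff_neg]

theorem mid (F : S k) (hF : F ∈ reesIdeal (phi k)) (hb : IsBihom F 2 2) :
    ∃ c : k, F = C (C c) * hh k := by
  refine ⟨-cc F (0, 1, 1) (0, 1, 1), ?_⟩
  have hG : F + C (C (cc F (0, 1, 1) (0, 1, 1))) * hh k = 0 := by
    apply J22
    · exact Ideal.add_mem _ hF (Ideal.mul_mem_left _ _ mem_h)
    · refine hb.add ?_
      exact ((isBihom_C (isHomogeneous_C _ _)).mul bi_h).cast (by norm_num) (by norm_num)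
    · rw [cc_add, cc_CC, cc_h]; ring
  have h5 := eq_neg_of_add_eq_zero_left hG
  have h6 : C (C (-cc F (0, 1, 1) (0, 1, 1))) * hh k = -(C (C (cc F (0, 1, 1) (0, 1, 1))) * hh k) := by
    simp only [map_neg]
    ring
  rw [h6]
  exact h5

theorem low (F : S k) (hF : F ∈ reesIdeal (phi k)) (i j : ℕ) (hb : IsBihom F i j) (hi : i ≤ 2)
    (hj : j ≤ 3) (hF0 : F ≠ 0) : i = 2 ∧ (j = 2 ∨ j = 3) := by
  have hX : ∀ n, (X 0 ^ n : S k) ≠ 0 := fun n => pow_ne_zero _ (X_ne_zero 0)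
  have hx : ∀ n, ((C (X 0) : S k) ^ n) ≠ 0 := fun n =>
    pow_ne_zero _ (by rw [Ne, C_eq_zero]; exact X_ne_zero 0)
  have hi2 : i = 2 := by
    by_contra hne
    have hi1 : i ≤ 1 := by omega
    have h0 : C (X 0) ^ (1 - i) * X 0 ^ (3 - j) * F = 0 := by
      apply J13 (Ideal.mul_mem_left _ _ hF)
      exact (((bx 0 (1 - i)).mul (bt 0 (3 - j))).mul hb).cast (by omega) (by omega)
    rcases mul_eq_zero.1 h0 with h | h
    · rcases mul_eq_zero.1 h with h | h
      · exact hx _ h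
      · exact hX _ h
    · exact hF0 h
  refine ⟨hi2, ?_⟩
  by_contra hne
  have hj1 : j ≤ 1 := by omega
  subst hi2
  obtain ⟨c, hc⟩ := mid (X 0 ^ (2 - j) * F) (Ideal.mul_mem_left _ _ hF)
    (((bt 0 (2 - j)).mul hb).cast (by omega) (by omega))
  have hcc := congrArg (fun G => cc G (0, 1, 1) (0, 1, 1)) hc
  simp only [cc_CC, cc_h] at hcc
  have hz : cc (X 0 ^ (2 - j) * F) (0, 1, 1) (0, 1, 1) = 0 := by
    have : 2 - j = (1 - j) + 1 := by omega
    rw [this, pow_succ, mul_comm (X 0 ^ (1 - j)) (X 0), mul_assoc, cc, coeff_X_mul', if_neg]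
    · simp
    · rw [Finsupp.mem_support_iff, not_not]; rfl
  rw [hz] at hcc
  have hc0 : c = 0 := by
    have : c * -1 = 0 := hcc.symm
    simpa using this
  rw [hc0] at hc
  have h0 : X 0 ^ (2 - j) * F = 0 := by rw [hc]; simp
  rcases mul_eq_zero.1 h0 with h | h
  · exact hX _ h
  · exact hF0 h

theorem ctx : Ctx (reesIdeal (phi k)) (hh k) (E₁ k) (E₂ k) where
  closed := fun _ hF i j => comp_mem _ minor_hom hF i j
  hmem := mem_h
  hbi := bi_h
  h0 := h_ne
  low := fun F hF i j hb hi hj h0 => low F hF i j hb hi hj h0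
  mid := mid
  m1 := mem_E₁
  m2 := mem_E₂
  b1 := bi_E₁
  b2 := bi_E₂
  ne1 := by have := E₁_ne (k := k) 0 0; simpa using this
  ne2 := by have := E₂_ne (k := k) 0 0; simpa using this
  i1 := E₁_ne
  i2 := E₂_ne

/-! ### the Sylvester forms -/

theorem syl_h : IsSylvesterForm (reesIdeal (phi k)) ![colForm (phi k) 0, colForm (phi k) 1]
    ![X 0 ^ 2, X 1 * X 2] (hh k) := by
  refine ⟨by norm_num, ?_, ![3, 3], ![1, 1], ![2, 2],
    !![C (X 0) * X 0 + C (X 2) * X 1, C (X 2) * X 2;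
      C (X 1) * X 1 + C (X 0) * X 2, C (X 1) * X 0], ?_, ?_, ?_, ?_, ?_⟩
  · intro i j h
    fin_cases i <;> fin_cases j
    · rfl
    · exact absurd h ne_f_g
    · exact absurd h.symm ne_f_g
    · rfl
  · intro i
    fin_cases i
    · exact ⟨mem_f, bi_f⟩
    · exact ⟨mem_g, bi_g⟩
  · intro j
    fin_cases j
    · exact ⟨by norm_num, (isHomogeneous_X _ 0).pow 2⟩
    · exact ⟨by norm_num, (isHomogeneous_X _ 1).mul (isHomogeneous_X _ 2)⟩
  · intro i j
    right
    fin_cases i <;> fin_cases j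
    · exact ⟨by norm_num, ((isBihom_x 0).mul (isBihom_t 0)).add ((isBihom_x 2).mul (isBihom_t 1))⟩
    · exact ⟨by norm_num, (isBihom_x 2).mul (isBihom_t 2)⟩
    · exact ⟨by norm_num, ((isBihom_x 1).mul (isBihom_t 1)).add ((isBihom_x 0).mul (isBihom_t 2))⟩
    · exact ⟨by norm_num, (isBihom_x 1).mul (isBihom_t 0)⟩
  · intro i
    rw [Fin.sum_univ_two]
    fin_cases i
    · show colForm (phi k) 0 = (C (X 0) * X 0 + C (X 2) * X 1) * C (X 0 ^ 2)
        + (C (X 2) * X 2) * C (X 1 * X 2)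
      rw [col0]
      simp only [map_mul, map_pow]
      ring
    · show colForm (phi k) 1 = (C (X 1) * X 1 + C (X 0) * X 2) * C (X 0 ^ 2)
        + (C (X 1) * X 0) * C (X 1 * X 2)
      rw [col1]
      simp only [map_mul, map_pow]
      ring
  · rw [Matrix.det_fin_two]
    rfl

theorem syl_E₁ : IsSylvesterForm (reesIdeal (phi k)) ![colForm (phi k) 0, hh k]
    ![X 0, X 1 * X 2] (E₁ k) := by
  refine ⟨by norm_num, ?_, ![3, 2], ![1, 2], ![1, 2],
    !![C (X 0) ^ 2 * X 0 + C (X 0) * C (X 2) * X 1, C (X 2) * X 2;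
      C (X 1) * X 0 ^ 2 - C (X 2) * X 2 ^ 2, X 0 * X 1 - X 1 * X 2], ?_, ?_, ?_, ?_, ?_⟩
  · intro i j h
    fin_cases i <;> fin_cases j
    · rfl
    · exact absurd h ne_f_h
    · exact absurd h.symm ne_f_h
    · rfl
  · intro i
    fin_cases i
    · exact ⟨mem_f, bi_f⟩
    · exact ⟨mem_h, bi_h⟩
  · intro j
    fin_cases j
    · exact ⟨by norm_num, isHomogeneous_X _ 0⟩
    · exact ⟨by norm_num, (isHomogeneous_X _ 1).mul (isHomogeneous_X _ 2)⟩
  · intro i j
    right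
    fin_cases i <;> fin_cases j
    · exact ⟨by norm_num, bi_p1⟩
    · exact ⟨by norm_num, (isBihom_x 2).mul (isBihom_t 2)⟩
    · exact ⟨by norm_num, bi_q⟩
    · exact ⟨by norm_num, bi_r⟩
  · intro i
    rw [Fin.sum_univ_two]
    fin_cases i
    · show colForm (phi k) 0 = (C (X 0) ^ 2 * X 0 + C (X 0) * C (X 2) * X 1) * C (X 0)
        + (C (X 2) * X 2) * C (X 1 * X 2)
      rw [col0]
      simp only [map_mul]
      ring
    · show hh k = (C (X 1) * X 0 ^ 2 - C (X 2) * X 2 ^ 2) * C (X 0)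
        + (X 0 * X 1 - X 1 * X 2) * C (X 1 * X 2)
      rw [hh]
      simp only [map_mul]
      ring
  · rw [Matrix.det_fin_two]
    rfl

theorem syl_E₂ : IsSylvesterForm (reesIdeal (phi k)) ![colForm (phi k) 1, hh k]
    ![X 0, X 1 * X 2] (E₂ k) := by
  refine ⟨by norm_num, ?_, ![3, 2], ![1, 2], ![1, 2],
    !![C (X 0) * C (X 1) * X 1 + C (X 0) ^ 2 * X 2, C (X 1) * X 0;
      C (X 1) * X 0 ^ 2 - C (X 2) * X 2 ^ 2, X 0 * X 1 - X 1 * X 2], ?_, ?_, ?_, ?_, ?_⟩
  · intro i j h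
    fin_cases i <;> fin_cases j
    · rfl
    · exact absurd h ne_g_h
    · exact absurd h.symm ne_g_h
    · rfl
  · intro i
    fin_cases i
    · exact ⟨mem_g, bi_g⟩
    · exact ⟨mem_h, bi_h⟩
  · intro j
    fin_cases j
    · exact ⟨by norm_num, isHomogeneous_X _ 0⟩
    · exact ⟨by norm_num, (isHomogeneous_X _ 1).mul (isHomogeneous_X _ 2)⟩
  · intro i j
    right
    fin_cases i <;> fin_cases j
    · exact ⟨by norm_num, bi_p2⟩
    · exact ⟨by norm_num, (isBihom_x 1).mul (isBihom_t 0)⟩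
    · exact ⟨by norm_num, bi_q⟩
    · exact ⟨by norm_num, bi_r⟩
  · intro i
    rw [Fin.sum_univ_two]
    fin_cases i
    · show colForm (phi k) 1 = (C (X 0) * C (X 1) * X 1 + C (X 0) ^ 2 * X 2) * C (X 0)
        + (C (X 1) * X 0) * C (X 1 * X 2)
      rw [col1]
      simp only [map_mul]
      ring
    · show hh k = (C (X 1) * X 0 ^ 2 - C (X 2) * X 2 ^ 2) * C (X 0)
        + (X 0 * X 1 - X 1 * X 2) * C (X 1 * X 2)
      rw [hh]
      simp only [map_mul]
      ring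
  · rw [Matrix.det_fin_two]
    rfl

theorem obt_h : Obtained (phi k) (hh k) :=
  Obtained.sylvester _ _ _ (fun i => by
    fin_cases i
    · exact Obtained.left
    · exact Obtained.right) syl_h

theorem iter_E₁ : IsIteratedSylvester (phi k) (E₁ k) :=
  ⟨2, _, _, fun i => by
    fin_cases i
    · exact Obtained.left
    · exact obt_h, syl_E₁⟩

theorem iter_E₂ : IsIteratedSylvester (phi k) (E₂ k) :=
  ⟨2, _, _, fun i => by
    fin_cases i
    · exact Obtained.right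
    · exact obt_h, syl_E₂⟩

end Pool.Agent.Q29.RS
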