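import Pool.Agent.Q29.RS.Bi

open MvPolynomial

namespace Pool.Agent.Q29.RS

variable {k : Type*} [Field k]

structure Ctx (J : Ideal (S k)) (h F₁ F₂ : S k) : Prop where
  closed : ∀ F ∈ J, ∀ i j, comp i j F ∈ J
  hmem : h ∈ J
  hbi : IsBihom h 2 2
  h0 : h ≠ 0
  low : ∀ F ∈ J, ∀ i j, IsBihom F i j → i ≤ 2 → j ≤ 3 → F ≠ 0 → i = 2 ∧ (j = 2 ∨ j = 3)
  mid : ∀ F ∈ J, IsBihom F 2 2 → ∃ c : k, F = C (C c) * h
  m1 : F₁ ∈ J
  m2 : F₂ ∈ J
  b1 : IsBihom F₁ 2 3
  b2 : IsBihom F₂ 2 3
  ne1 : F₁ ≠ 0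
  ne2 : F₂ ≠ 0
  i1 : ∀ l m, F₁ ≠ l * h + m * F₂
  i2 : ∀ l m, F₂ ≠ l * h + m * F₁

theorem Ctx.symm {J : Ideal (S k)} {h F₁ F₂ : S k} (c : Ctx J h F₁ F₂) : Ctx J h F₂ F₁ :=
  ⟨c.closed, c.hmem, c.hbi, c.h0, c.low, c.mid, c.m2, c.m1, c.b2, c.b1, c.ne2, c.ne1, c.i2, c.i1⟩

/-- the nonzero bihomogeneous elements -/
def Bset (J : Ideal (S k)) : Set (S k) := {F | F ≠ 0 ∧ F ∈ J ∧ ∃ i j, IsBihom F i j}

theorem span_Bset {J : Ideal (S k)} (closed : ∀ F ∈ J, ∀ i j, comp i j F ∈ J) :
    Ideal.span (Bset J) = J := by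
  apply le_antisymm
  · rw [Ideal.span_le]
    intro F hF
    exact hF.2.1
  · intro F hF
    obtain ⟨N, M, hNM⟩ := sum_comp F
    rw [hNM]
    apply Ideal.sum_mem
    intro j _
    apply Ideal.sum_mem
    intro i _
    by_cases h0 : comp i j F = 0
    · rw [h0]; exact Ideal.zero_mem _
    · exact Ideal.subset_span ⟨h0, closed F hF i j, i, j, isBihom_comp i j F⟩

/-- the part of bidegree (2, 3) of an element of the span of bihomogeneous elements -/
theorem key23 {J : Ideal (S k)} {h F₁ F₂ : S k} (c : Ctx J h F₁ F₂) (X : Finset (S k))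
    (hX : (X : Set (S k)) ⊆ Bset J) {P : S k} (hP : P ∈ Ideal.span (X : Set (S k)))
    (hPb : IsBihom P 2 3) : ∃ (l : S k) (lam : S k → k),
      P = l * h + ∑ G ∈ X, C (C (lam G)) * G ∧ ∀ G ∈ X, lam G ≠ 0 → IsBihom G 2 3 := by
  classical
  obtain ⟨s, -, hs⟩ := Submodule.mem_span_finset.1 hP
  have hex : ∀ G : S k, ∃ (l : S k) (lam : k), G ∈ X →
      comp 2 3 (s G * G) = l * h + C (C lam) * G ∧ (lam ≠ 0 → IsBihom G 2 3) := by
    intro G
    by_cases hG : G ∈ X
    · obtain ⟨hG0, hGJ, i, j, hij⟩ := hX hG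
      by_cases hle : i ≤ 2 ∧ j ≤ 3
      · obtain ⟨hi, hj⟩ := c.low G hGJ i j hij hle.1 hle.2 hG0
        subst hi
        rcases hj with rfl | rfl
        · obtain ⟨a, ha⟩ := c.mid G hGJ hij
          refine ⟨comp 0 1 (s G) * C (C a), 0, fun _ => ⟨?_, fun h => absurd rfl h⟩⟩
          rw [comp_mul hij, if_pos ⟨le_refl _, by norm_num⟩]
          have : (2 - 2 : ℕ) = 0 := rfl
          have h31 : (3 - 2 : ℕ) = 1 := rfl
          rw [this, h31]
          have h5 : comp 0 1 (s G) * G = comp 0 1 (s G) * (C (C a) * h) := congrArg _ ha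
          rw [h5]
          simp [mul_assoc]
        · obtain ⟨a, ha⟩ := (isBihom_comp 0 0 (s G)).exists_scalar
          refine ⟨0, a, fun _ => ⟨?_, fun _ => hij⟩⟩
          rw [comp_mul hij, if_pos ⟨le_refl _, le_refl _⟩]
          simp only [Nat.sub_self]
          rw [ha]
          simp
      · refine ⟨0, 0, fun _ => ⟨?_, fun h => absurd rfl h⟩⟩
        rw [comp_mul hij, if_neg hle]
        simp
    · exact ⟨0, 0, fun h => absurd h hG⟩
  choose l lam hl using hex
  refine ⟨∑ G ∈ X, l G, lam, ?_, fun G hG => (hl G hG).2⟩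
  have h1 : P = ∑ G ∈ X, comp 2 3 (s G * G) := by
    rw [← comp_sum]
    conv_lhs => rw [← hPb.comp_eq]
    rw [← hs]
    rfl
  rw [h1, Finset.sum_congr rfl fun G hG => (hl G hG).1, Finset.sum_add_distrib, Finset.sum_mul]

/-- a bihomogeneous generating set contains a scalar multiple of h -/
theorem key22 {J : Ideal (S k)} {h F₁ F₂ : S k} (c : Ctx J h F₁ F₂) (X : Finset (S k))
    (hX : (X : Set (S k)) ⊆ Bset J) (hh : h ∈ Ideal.span (X : Set (S k))) :
    ∃ G ∈ X, IsBihom G 2 2 ∧ ∃ a : k, h = C (C a) * G := by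
  classical
  obtain ⟨s, -, hs⟩ := Submodule.mem_span_finset.1 hh
  by_contra hcon
  push Not at hcon
  have hno : ∀ G ∈ X, ¬ IsBihom G 2 2 := by
    intro G hG hb
    obtain ⟨hG0, hGJ, -⟩ := hX hG
    obtain ⟨a, ha⟩ := c.mid G hGJ hb
    have ha0 : a ≠ 0 := by
      rintro rfl
      apply hG0
      rw [ha]; simp
    apply hcon G hG hb a⁻¹
    rw [ha, ← mul_assoc, ← C_mul, ← C_mul, inv_mul_cancel₀ ha0]
    simp
  apply c.h0
  have h1 : h = ∑ G ∈ X, comp 2 2 (s G * G) := by
    rw [← comp_sum]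
    conv_lhs => rw [← c.hbi.comp_eq]
    rw [← hs]
    rfl
  rw [h1]
  apply Finset.sum_eq_zero
  intro G hG
  obtain ⟨hG0, hGJ, i, j, hij⟩ := hX hG
  rw [comp_mul hij]
  split_ifs with hle
  · exfalso
    obtain ⟨hi, hj⟩ := c.low G hGJ i j hij hle.1 (by omega) hG0
    subst hi
    have : j = 2 := by omega
    subst this
    exact hno G hG hij
  · rfl

/-- the step: the first of the two elements is not redundant -/
theorem not_redundant {J : Ideal (S k)} {h F₁ F₂ : S k} (c : Ctx J h F₁ F₂) (T : Finset (S k))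
    (hT : (T : Set (S k)) ⊆ Bset J)
    (hspan : Ideal.span (insert F₁ (insert F₂ (T : Set (S k)))) = J)
    (hmin : ∀ G ∈ T, Ideal.span (insert F₁ (insert F₂ ((T : Set (S k)) \ {G}))) ≠ J)
    (h1T : F₁ ∉ T) (h2T : F₂ ∉ T) :
    Ideal.span (insert F₂ (T : Set (S k))) ≠ J := by
  classical
  intro hcon
  have hX : ((insert F₂ T : Finset (S k)) : Set (S k)) ⊆ Bset J := by
    rw [Finset.coe_insert]
    intro G hG
    rcases hG with rfl | hG
    · exact ⟨c.ne2, c.m2, 2, 3, c.b2⟩
    · exact hT hG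
  have hP : F₁ ∈ Ideal.span ((insert F₂ T : Finset (S k)) : Set (S k)) := by
    rw [Finset.coe_insert, hcon]; exact c.m1
  obtain ⟨l, lam, heq, hlam⟩ := key23 c (insert F₂ T) hX hP c.b1
  rw [Finset.sum_insert h2T] at heq
  by_cases hall : ∀ G ∈ T, lam G = 0
  · apply c.i1 l (C (C (lam F₂)))
    rw [heq]
    congr 1
    rw [Finset.sum_eq_zero, add_zero]
    intro G hG
    rw [hall G hG]; simp
  · push Not at hall
    obtain ⟨G, hG, hlG⟩ := hall
    have hGb : IsBihom G 2 3 := hlam G (Finset.mem_insert_of_mem hG) hlG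
    have hG0 : G ≠ 0 := (hT hG).1
    apply hmin G hG
    set I := Ideal.span (insert F₁ (insert F₂ ((T : Set (S k)) \ {G}))) with hI
    have hF1 : F₁ ∈ I := Ideal.subset_span (Set.mem_insert _ _)
    have hF2 : F₂ ∈ I := Ideal.subset_span (Set.mem_insert_of_mem _ (Set.mem_insert _ _))
    have hT' : ∀ G' ∈ T, G' ≠ G → G' ∈ I := fun G' hG' hne =>
      Ideal.subset_span (Set.mem_insert_of_mem _ (Set.mem_insert_of_mem _ ⟨hG', hne⟩))
    have hh : h ∈ I := by
      have hX2 : ((insert F₁ (insert F₂ T) : Finset (S k)) : Set (S k)) ⊆ Bset J := by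
        rw [Finset.coe_insert]
        intro G hG
        rcases hG with rfl | hG
        · exact ⟨c.ne1, c.m1, 2, 3, c.b1⟩
        · exact hX hG
      have hhs : h ∈ Ideal.span ((insert F₁ (insert F₂ T) : Finset (S k)) : Set (S k)) := by
        rw [Finset.coe_insert, Finset.coe_insert, hspan]; exact c.hmem
      obtain ⟨G', hG', hb, a, ha⟩ := key22 c _ hX2 hhs
      rw [ha]
      apply Ideal.mul_mem_left
      rw [Finset.mem_insert, Finset.mem_insert] at hG'
      rcases hG' with rfl | rfl | hG'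
      · exact hF1
      · exact hF2
      · apply hT' G' hG'
        rintro rfl
        have := (hb.unique hGb hG0).2
        omega
    have hGI : G ∈ I := by
      rw [← Finset.add_sum_erase T _ hG] at heq
      have h3 : C (C (lam G)) * G = F₁ - l * h - C (C (lam F₂)) * F₂
          - ∑ x ∈ T.erase G, C (C (lam x)) * x := by
        rw [heq]; ring
      have h4 : C (C (lam G)) * G ∈ I := by
        rw [h3]
        refine I.sub_mem (I.sub_mem (I.sub_mem hF1 (I.mul_mem_left _ hh))
          (I.mul_mem_left _ hF2)) (I.sum_mem fun x hx => I.mul_mem_left _ ?_)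
        rw [Finset.mem_erase] at hx
        exact hT' x hx.2 hx.1
      have h5 : G = C (C (lam G)⁻¹) * (C (C (lam G)) * G) := by
        rw [← mul_assoc, ← C_mul, ← C_mul, inv_mul_cancel₀ hlG]; simp
      rw [h5]
      exact I.mul_mem_left _ h4
    apply le_antisymm
    · rw [hI, Ideal.span_le]
      rintro x (rfl | rfl | hx)
      · exact c.m1
      · exact c.m2
      · exact (hT hx.1).2.1
    · rw [← hspan, Ideal.span_le]
      rintro x (rfl | rfl | hx)
      · exact hF1
      · exact hF2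
      · by_cases hxG : x = G
        · rw [hxG]; exact hGI
        · exact hT' x hx hxG

theorem exists_min {J : Ideal (S k)} {h F₁ F₂ : S k} (c : Ctx J h F₁ F₂) :
    ∃ G : Finset (S k), IsMinimalGenerating J G ∧ F₁ ∈ G ∧ F₂ ∈ G := by
  classical
  have hB := span_Bset c.closed
  obtain ⟨G0, hG0B, hG0⟩ := (Submodule.fg_span_iff_fg_span_finset_subset (R := S k) (Bset J)).1
    (IsNoetherian.noetherian _)
  have hG0' : Ideal.span (G0 : Set (S k)) = J := by
    rw [← hB]; exact hG0.symm
  let P : Finset (S k) → Prop := fun T => (T : Set (S k)) ⊆ Bset J ∧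
    Ideal.span (insert F₁ (insert F₂ (T : Set (S k)))) = J
  have hP0 : P G0 := by
    refine ⟨hG0B, ?_⟩
    apply le_antisymm
    · rw [Ideal.span_le]
      rintro x (rfl | rfl | hx)
      · exact c.m1
      · exact c.m2
      · exact (hG0B hx).2.1
    · conv_lhs => rw [← hG0']
      apply Ideal.span_mono
      exact fun x hx => Set.mem_insert_of_mem _ (Set.mem_insert_of_mem _ hx)
  obtain ⟨T, hT⟩ := exists_minimal_of_wellFoundedLT P ⟨G0, hP0⟩
  obtain ⟨hTB, hTs⟩ := hT.prop
  have hmin' : ∀ G ∈ T, ¬ P (T.erase G) := by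
    intro G hG hPG
    have := hT.le_of_le hPG (Finset.erase_subset G T)
    exact Finset.notMem_erase G T (this hG)
  have hmin : ∀ G ∈ T, Ideal.span (insert F₁ (insert F₂ ((T : Set (S k)) \ {G}))) ≠ J := by
    intro G hG hcon
    apply hmin' G hG
    refine ⟨?_, ?_⟩
    · rw [Finset.coe_erase]
      exact fun x hx => hTB hx.1
    · rw [Finset.coe_erase]; exact hcon
  have h1T : F₁ ∉ T := by
    intro h1
    apply hmin F₁ h1
    rw [← hTs]
    congr 1
    ext x
    simp only [Set.mem_insert_iff, Set.mem_sdiff, Finset.mem_coe, Set.mem_singleton_iff]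
    tauto
  have h2T : F₂ ∉ T := by
    intro h1
    apply hmin F₂ h1
    rw [← hTs]
    congr 1
    ext x
    simp only [Set.mem_insert_iff, Set.mem_sdiff, Finset.mem_coe, Set.mem_singleton_iff]
    tauto
  have hne : F₁ ≠ F₂ := by
    intro h
    apply c.i1 0 1
    rw [h]; ring
  have hr1 := not_redundant c T hTB hTs hmin h1T h2T
  have hr2 := not_redundant c.symm T hTB (by rw [Set.insert_comm]; exact hTs)
    (fun G hG => by rw [Set.insert_comm]; exact hmin G hG) h2T h1T
  refine ⟨insert F₁ (insert F₂ T), ⟨?_, ?_, ?_⟩, Finset.mem_insert_self _ _,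
    Finset.mem_insert_of_mem (Finset.mem_insert_self _ _)⟩
  · intro F hF
    rw [Finset.mem_insert, Finset.mem_insert] at hF
    rcases hF with rfl | rfl | hF
    · exact ⟨2, 3, c.b1⟩
    · exact ⟨2, 3, c.b2⟩
    · exact (hTB hF).2.2
  · rw [Finset.coe_insert, Finset.coe_insert]; exact hTs
  · intro G' hG' hcon
    obtain ⟨e, he, heG⟩ := Finset.exists_of_ssubset hG'
    have hsub : ∀ x ∈ G', x = F₁ ∨ x = F₂ ∨ x ∈ T := by
      intro x hx
      have := hG'.1 hx
      rwa [Finset.mem_insert, Finset.mem_insert] at this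
    have hJT : ∀ x ∈ T, x ∈ J := fun x hx => (hTB hx).2.1
    rw [Finset.mem_insert, Finset.mem_insert] at he
    rcases he with rfl | rfl | he
    · apply hr1
      apply le_antisymm
      · rw [Ideal.span_le]
        rintro x (rfl | hx)
        · exact c.m2
        · exact hJT x hx
      · conv_lhs => rw [← hcon]
        rw [Ideal.span_le]
        intro x hx
        rcases hsub x hx with rfl | rfl | hx'
        · exact absurd hx heG
        · exact Ideal.subset_span (Set.mem_insert _ _)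
        · exact Ideal.subset_span (Set.mem_insert_of_mem _ hx')
    · apply hr2
      apply le_antisymm
      · rw [Ideal.span_le]
        rintro x (rfl | hx)
        · exact c.m1
        · exact hJT x hx
      · conv_lhs => rw [← hcon]
        rw [Ideal.span_le]
        intro x hx
        rcases hsub x hx with rfl | rfl | hx'
        · exact Ideal.subset_span (Set.mem_insert _ _)
        · exact absurd hx heG
        · exact Ideal.subset_span (Set.mem_insert_of_mem _ hx')
    · apply hmin e he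
      apply le_antisymm
      · rw [Ideal.span_le]
        rintro x (rfl | rfl | hx)
        · exact c.m1
        · exact c.m2
        · exact hJT x hx.1
      · conv_lhs => rw [← hcon]
        rw [Ideal.span_le]
        intro x hx
        rcases hsub x hx with rfl | rfl | hx'
        · exact Ideal.subset_span (Set.mem_insert _ _)
        · exact Ideal.subset_span (Set.mem_insert_of_mem _ (Set.mem_insert _ _))
        · refine Ideal.subset_span (Set.mem_insert_of_mem _ (Set.mem_insert_of_mem _ ⟨hx', ?_⟩))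
          rintro rfl
          exact heG hx

end Pool.Agent.Q29.RS
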