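import Pool.Agent.Q29.RS.Phi

open MvPolynomial
open scoped Pointwise

namespace Pool.Agent.Q29.RS

variable {k : Type*} [Field k]

theorem sub_retr_mem (J : Ideal (R k)) (π : R k →ₐ[k] R k) (h : ∀ i, X i - π (X i) ∈ J)
    (F : R k) : F - π F ∈ J := by
  induction F using MvPolynomial.induction_on with
  | C a =>
    have : π (C a) = C a := by
      rw [← algebraMap_eq, AlgHom.commutes]
    rw [this, sub_self]; exact J.zero_mem
  | add p q hp hq =>
    have : p + q - π (p + q) = (p - π p) + (q - π q) := by rw [map_add]; ring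
    rw [this]; exact J.add_mem hp hq
  | mul_X p i hp =>
    have : p * X i - π (p * X i) = (p - π p) * X i + π p * (X i - π (X i)) := by
      rw [map_mul]; ring
    rw [this]
    exact J.add_mem (J.mul_mem_right _ hp) (J.mul_mem_left _ (h i))

theorem mem_of_retr {J : Ideal (R k)} {π : R k →ₐ[k] R k} (h : ∀ i, X i - π (X i) ∈ J)
    {F : R k} (hF : π F = 0) : F ∈ J := by
  have := sub_retr_mem J π h F
  rwa [hF, sub_zero] at this

theorem prime_of_retr {J : Ideal (R k)} {π : R k →ₐ[k] R k} (h : ∀ i, X i - π (X i) ∈ J)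
    (hJ : ∀ F ∈ J, π F = 0) : J.IsPrime := by
  have : J = RingHom.ker π := by
    ext F
    exact ⟨fun hF => hJ F hF, fun hF => mem_of_retr h hF⟩
  rw [this]
  exact RingHom.ker_isPrime π

theorem two_le {J P : Ideal (R k)} [J.IsPrime] [P.IsPrime] (h0 : J ≠ ⊥) (h : J < P) :
    2 ≤ P.height := by
  have hb : (⊥ : Ideal (R k)) < J := bot_lt_iff_ne_bot.2 h0
  have h1 := Ideal.height_add_one_le_of_lt_of_isPrime hb
  have h2 := Ideal.height_add_one_le_of_lt_of_isPrime h
  calc (2 : ℕ∞) = 0 + 1 + 1 := by norm_num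
    _ ≤ (⊥ : Ideal (R k)).height + 1 + 1 := by gcongr; exact bot_le
    _ ≤ J.height + 1 := by gcongr
    _ ≤ P.height := h2

/-- `(x)` -/
instance prime_x : (Ideal.span {(X 0 : R k)}).IsPrime :=
  (Ideal.span_singleton_prime (X_ne_zero 0)).2 (X_prime (i := 0))

theorem two_le_of_mem {P : Ideal (R k)} [P.IsPrime] (hx : X 0 ∈ P) {v : R k} (hv : v ∈ P)
    (hv' : ¬ (X 0 ∣ v)) : 2 ≤ P.height := by
  apply two_le (J := Ideal.span {(X 0 : R k)})
  · rw [Ne, Ideal.span_singleton_eq_bot]; exact X_ne_zero 0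
  · refine lt_of_le_of_ne ?_ ?_
    · rw [Ideal.span_singleton_le_iff_mem]; exact hx
    · intro h
      apply hv'
      rw [← Ideal.mem_span_singleton, h]; exact hv

theorem not_dvd_y : ¬ ((X 0 : R k) ∣ X 1) := by
  rintro ⟨c, hc⟩
  have := congrArg (MvPolynomial.eval ![0, 1, 0]) hc
  simp at this

theorem not_dvd_z : ¬ ((X 0 : R k) ∣ X 2) := by
  rintro ⟨c, hc⟩
  have := congrArg (MvPolynomial.eval ![0, 0, 1]) hc
  simp at this

/-- the retraction `z ↦ y` -/
noncomputable def πd : R k →ₐ[k] R k := aeval ![X 0, X 1, X 1]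

instance prime_d : (Ideal.span {(X 2 - X 1 : R k)}).IsPrime := by
  apply prime_of_retr (π := πd)
  · intro i
    unfold πd
    rw [aeval_X]
    fin_cases i
    · show (X 0 - X 0 : R k) ∈ _
      rw [sub_self]; exact Ideal.zero_mem _
    · show (X 1 - X 1 : R k) ∈ _
      rw [sub_self]; exact Ideal.zero_mem _
    · exact Ideal.subset_span rfl
  · intro F hF
    obtain ⟨c, rfl⟩ := Ideal.mem_span_singleton.1 hF
    unfold πd
    simp

theorem minor_mem (i : Fin 3) : minor (phi k) i ∈ minorIdeal (phi k) :=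
  Ideal.subset_span ⟨i, rfl⟩

theorem two_le_minor : 2 ≤ (minorIdeal (phi k)).height := by
  rw [Ideal.height_eq_inf_minimalPrimes]
  refine le_iInf₂ fun P hP => ?_
  have : P.IsPrime := hP.1.1
  have hI : minorIdeal (phi k) ≤ P := hP.1.2
  have h0 : (X 0 ^ 2 * X 2 * (X 0 ^ 3 - X 1 ^ 2 * X 2) : R k) ∈ P := by
    have := hI (minor_mem 0)
    rw [minor_zero] at this
    convert! this using 1
    ring
  have h1 : (X 1 ^ 3 * X 2 ^ 3 - X 0 ^ 6 : R k) ∈ P := by
    have := hI (minor_mem 1)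
    rwa [minor_one] at this
  have h2 : (X 0 ^ 2 * X 1 * (X 0 ^ 3 - X 1 * X 2 ^ 2) : R k) ∈ P := by
    have := hI (minor_mem 2)
    rw [minor_two] at this
    convert! this using 1
    ring
  -- if x is in P
  have case_x : (X 0 : R k) ∈ P → 2 ≤ P.height := by
    intro hx
    have : (X 1 ^ 3 * X 2 ^ 3 : R k) ∈ P := by
      have h3 := P.add_mem h1 (P.pow_mem_of_mem hx 6 (by norm_num))
      have h4 : (X 1 ^ 3 * X 2 ^ 3 - X 0 ^ 6 + X 0 ^ 6 : R k) = X 1 ^ 3 * X 2 ^ 3 := by ring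
      rwa [h4] at h3
    rcases Ideal.IsPrime.mem_or_mem ‹_› this with h | h
    · exact two_le_of_mem hx (Ideal.IsPrime.mem_of_pow_mem ‹_› _ h) not_dvd_y
    · exact two_le_of_mem hx (Ideal.IsPrime.mem_of_pow_mem ‹_› _ h) not_dvd_z
  have case_y : (X 1 : R k) ∈ P → 2 ≤ P.height := by
    intro hy
    apply case_x
    have h3 : (X 0 ^ 6 : R k) ∈ P := by
      have h5 : (X 1 ^ 3 * X 2 ^ 3 : R k) ∈ P :=
        P.mul_mem_right _ (P.pow_mem_of_mem hy 3 (by norm_num))
      have h4 := P.sub_mem h5 h1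
      have h6 : (X 1 ^ 3 * X 2 ^ 3 - (X 1 ^ 3 * X 2 ^ 3 - X 0 ^ 6) : R k) = X 0 ^ 6 := by ring
      rwa [h6] at h4
    exact Ideal.IsPrime.mem_of_pow_mem ‹_› _ h3
  have case_z : (X 2 : R k) ∈ P → 2 ≤ P.height := by
    intro hy
    apply case_x
    have h3 : (X 0 ^ 6 : R k) ∈ P := by
      have h5 : (X 1 ^ 3 * X 2 ^ 3 : R k) ∈ P :=
        P.mul_mem_left _ (P.pow_mem_of_mem hy 3 (by norm_num))
      have h4 := P.sub_mem h5 h1
      have h6 : (X 1 ^ 3 * X 2 ^ 3 - (X 1 ^ 3 * X 2 ^ 3 - X 0 ^ 6) : R k) = X 0 ^ 6 := by ring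
      rwa [h6] at h4
    exact Ideal.IsPrime.mem_of_pow_mem ‹_› _ h3
  rcases Ideal.IsPrime.mem_or_mem ‹_› h0 with h | hw
  · rcases Ideal.IsPrime.mem_or_mem ‹_› h with h | h
    · exact case_x (Ideal.IsPrime.mem_of_pow_mem ‹_› _ h)
    · exact case_z h
  rcases Ideal.IsPrime.mem_or_mem ‹_› h2 with h | hw'
  · rcases Ideal.IsPrime.mem_or_mem ‹_› h with h | h
    · exact case_x (Ideal.IsPrime.mem_of_pow_mem ‹_› _ h)
    · exact case_y h
  have h3 : (X 1 * X 2 * (X 2 - X 1) : R k) ∈ P := by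
    have h4 := P.sub_mem hw hw'
    have h6 : (X 0 ^ 3 - X 1 ^ 2 * X 2 - (X 0 ^ 3 - X 1 * X 2 ^ 2) : R k)
        = X 1 * X 2 * (X 2 - X 1) := by ring
    rwa [h6] at h4
  rcases Ideal.IsPrime.mem_or_mem ‹_› h3 with h | hd
  · rcases Ideal.IsPrime.mem_or_mem ‹_› h with h | h
    · exact case_y h
    · exact case_z h
  apply two_le (J := Ideal.span {(X 2 - X 1 : R k)})
  · rw [Ne, Ideal.span_singleton_eq_bot]
    intro h
    have := congrArg (MvPolynomial.eval ![0, 0, 1]) h
    simp at this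
  · refine lt_of_le_of_ne ?_ ?_
    · rw [Ideal.span_singleton_le_iff_mem]; exact hd
    · intro h
      have h4 : (X 0 ^ 3 - X 1 ^ 2 * X 2 : R k) ∈ Ideal.span {(X 2 - X 1 : R k)} := by
        rw [h]; exact hw
      obtain ⟨c, hc⟩ := Ideal.mem_span_singleton.1 h4
      have := congrArg (MvPolynomial.eval ![1, 0, 0]) hc
      simp at this

/-! ### the ideals (x, y) and (x, z) -/

noncomputable def πy : R k →ₐ[k] R k := aeval ![0, 0, X 2]
noncomputable def πz : R k →ₐ[k] R k := aeval ![0, X 1, 0]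

noncomputable def Py (k : Type*) [Field k] : Ideal (R k) := Ideal.span {X 0, X 1}
noncomputable def Pz (k : Type*) [Field k] : Ideal (R k) := Ideal.span {X 0, X 2}

theorem πy_mem {F : R k} (hF : F ∈ Py k) : πy F = 0 := by
  obtain ⟨a, b, rfl⟩ := Ideal.mem_span_pair.1 hF
  simp [πy]

theorem πz_mem {F : R k} (hF : F ∈ Pz k) : πz F = 0 := by
  obtain ⟨a, b, rfl⟩ := Ideal.mem_span_pair.1 hF
  simp [πz]

theorem retr_y (i : Fin 3) : X i - πy (X i) ∈ Py k := by
  unfold πy
  rw [aeval_X]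
  fin_cases i
  · show (X 0 - 0 : R k) ∈ Py k
    rw [sub_zero]; exact Ideal.subset_span (by simp)
  · show (X 1 - 0 : R k) ∈ Py k
    rw [sub_zero]; exact Ideal.subset_span (by simp)
  · show (X 2 - X 2 : R k) ∈ Py k
    rw [sub_self]; exact Ideal.zero_mem _

theorem retr_z (i : Fin 3) : X i - πz (X i) ∈ Pz k := by
  unfold πz
  rw [aeval_X]
  fin_cases i
  · show (X 0 - 0 : R k) ∈ Pz k
    rw [sub_zero]; exact Ideal.subset_span (by simp)
  · show (X 1 - X 1 : R k) ∈ Pz k
    rw [sub_self]; exact Ideal.zero_mem _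
  · show (X 2 - 0 : R k) ∈ Pz k
    rw [sub_zero]; exact Ideal.subset_span (by simp)

instance prime_Py : (Py k).IsPrime := prime_of_retr retr_y fun _ h => πy_mem h
instance prime_Pz : (Pz k).IsPrime := prime_of_retr retr_z fun _ h => πz_mem h

theorem height_Py : (Py k).height = 2 := by
  classical
  apply le_antisymm
  · have h : Py k ∈ (Ideal.span (({X 0, X 1} : Finset (R k)) : Set (R k))).minimalPrimes := by
      rw [Finset.coe_insert, Finset.coe_singleton]
      show Py k ∈ (Py k).minimalPrimes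
      rw [Ideal.minimalPrimes_eq_subsingleton_self]; rfl
    exact (Ideal.height_le_card_of_mem_minimalPrimes_span_finset h).trans
      (by exact_mod_cast Finset.card_le_two)
  · exact two_le_of_mem (Ideal.subset_span (by simp)) (Ideal.subset_span (by simp)) not_dvd_y

theorem height_Pz : (Pz k).height = 2 := by
  classical
  apply le_antisymm
  · have h : Pz k ∈ (Ideal.span (({X 0, X 2} : Finset (R k)) : Set (R k))).minimalPrimes := by
      rw [Finset.coe_insert, Finset.coe_singleton]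
      show Pz k ∈ (Pz k).minimalPrimes
      rw [Ideal.minimalPrimes_eq_subsingleton_self]; rfl
    exact (Ideal.height_le_card_of_mem_minimalPrimes_span_finset h).trans
      (by exact_mod_cast Finset.card_le_two)
  · exact two_le_of_mem (Ideal.subset_span (by simp)) (Ideal.subset_span (by simp)) not_dvd_z

theorem x_mem_y : (X 0 : R k) ∈ Py k := Ideal.subset_span (by simp)
theorem y_mem_y : (X 1 : R k) ∈ Py k := Ideal.subset_span (by simp)
theorem x_mem_z : (X 0 : R k) ∈ Pz k := Ideal.subset_span (by simp)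
theorem z_mem_z : (X 2 : R k) ∈ Pz k := Ideal.subset_span (by simp)

theorem minor_le : minorIdeal (phi k) ≤ Py k := by
  unfold minorIdeal
  rw [Ideal.span_le]
  rintro _ ⟨i, rfl⟩
  have hxp : ∀ n, n ≠ 0 → (X 0 ^ n : R k) ∈ Py k := fun n hn =>
    (Py k).pow_mem_of_mem x_mem_y n (Nat.pos_of_ne_zero hn)
  fin_cases i
  · show minor (phi k) 0 ∈ Py k
    rw [minor_zero]
    exact (Py k).sub_mem ((Py k).mul_mem_right _ (hxp 5 (by norm_num)))
      ((Py k).mul_mem_right _ ((Py k).mul_mem_right _ (hxp 2 (by norm_num))))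
  · show minor (phi k) 1 ∈ Py k
    rw [minor_one]
    exact (Py k).sub_mem ((Py k).mul_mem_right _ ((Py k).pow_mem_of_mem y_mem_y 3 (by norm_num)))
      (hxp 6 (by norm_num))
  · show minor (phi k) 2 ∈ Py k
    rw [minor_two]
    exact (Py k).sub_mem ((Py k).mul_mem_right _ (hxp 5 (by norm_num)))
      ((Py k).mul_mem_right _ ((Py k).mul_mem_right _ (hxp 2 (by norm_num))))

theorem height_minor : (minorIdeal (phi k)).height = 2 :=
  le_antisymm ((Ideal.height_mono minor_le).trans height_Py.le) two_le_minor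

/-! ### the ideal of entries -/

theorem entry_mem (i : Fin 3) (j : Fin 2) : phi k i j ∈ entryIdeal (phi k) :=
  Ideal.subset_span ⟨(i, j), rfl⟩

theorem entry_le {J : Ideal (R k)} (h1 : X 0 ^ 3 ∈ J) (h2 : X 1 ^ 2 * X 2 ∈ J)
    (h3 : X 0 ^ 2 * X 2 ∈ J) (h4 : X 0 ^ 2 * X 1 ∈ J) (h5 : X 1 * X 2 ^ 2 ∈ J) :
    entryIdeal (phi k) ≤ J := by
  unfold entryIdeal
  rw [Ideal.span_le]
  rintro _ ⟨⟨i, j⟩, rfl⟩
  fin_cases i <;> fin_cases j
  · exact h1
  · exact h2
  · exact h3
  · exact h4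
  · exact h5
  · exact h1

theorem e1 : (X 0 ^ 3 : R k) ∈ entryIdeal (phi k) := entry_mem 0 0
theorem e2 : (X 1 ^ 2 * X 2 : R k) ∈ entryIdeal (phi k) := entry_mem 0 1
theorem e3 : (X 0 ^ 2 * X 2 : R k) ∈ entryIdeal (phi k) := entry_mem 1 0
theorem e4 : (X 0 ^ 2 * X 1 : R k) ∈ entryIdeal (phi k) := entry_mem 1 1
theorem e5 : (X 1 * X 2 ^ 2 : R k) ∈ entryIdeal (phi k) := entry_mem 2 0

theorem entry_le_y : entryIdeal (phi k) ≤ Py k := by
  have hx2 : (X 0 ^ 2 : R k) ∈ Py k := (Py k).pow_mem_of_mem x_mem_y 2 (by norm_num)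
  exact entry_le ((Py k).pow_mem_of_mem x_mem_y 3 (by norm_num))
    ((Py k).mul_mem_right _ ((Py k).pow_mem_of_mem y_mem_y 2 (by norm_num)))
    ((Py k).mul_mem_right _ hx2) ((Py k).mul_mem_right _ hx2)
    ((Py k).mul_mem_right _ y_mem_y)

theorem entry_le_z : entryIdeal (phi k) ≤ Pz k := by
  have hx2 : (X 0 ^ 2 : R k) ∈ Pz k := (Pz k).pow_mem_of_mem x_mem_z 2 (by norm_num)
  exact entry_le ((Pz k).pow_mem_of_mem x_mem_z 3 (by norm_num))
    ((Pz k).mul_mem_left _ z_mem_z)
    ((Pz k).mul_mem_right _ hx2) ((Pz k).mul_mem_right _ hx2)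
    ((Pz k).mul_mem_left _ ((Pz k).pow_mem_of_mem z_mem_z 2 (by norm_num)))

/-- a prime that contains the entries contains `x` and one of `y`, `z` -/
theorem prime_entry {P : Ideal (R k)} [P.IsPrime] (h : entryIdeal (phi k) ≤ P) :
    X 0 ∈ P ∧ (X 1 ∈ P ∨ X 2 ∈ P) := by
  refine ⟨Ideal.IsPrime.mem_of_pow_mem ‹_› 3 (h e1), ?_⟩
  rcases Ideal.IsPrime.mem_or_mem ‹_› (h e2) with h | h
  · exact Or.inl (Ideal.IsPrime.mem_of_pow_mem ‹_› _ h)
  · exact Or.inr h

theorem height_entry : (entryIdeal (phi k)).height = 2 := by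
  refine le_antisymm ((Ideal.height_mono entry_le_y).trans height_Py.le) ?_
  rw [Ideal.height_eq_inf_minimalPrimes]
  refine le_iInf₂ fun P hP => ?_
  have : P.IsPrime := hP.1.1
  obtain ⟨hx, hy | hz⟩ := prime_entry hP.1.2
  · exact two_le_of_mem hx hy not_dvd_y
  · exact two_le_of_mem hx hz not_dvd_z

theorem min_y : Py k ∈ (entryIdeal (phi k)).minimalPrimes := by
  have : (Py k).FiniteHeight := ⟨Or.inr (by rw [height_Py]; exact ENat.natCast_ne_top 2)⟩
  exact Ideal.mem_minimalPrimes_of_height_le entry_le_y (by rw [height_Py, height_entry])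

theorem min_z : Pz k ∈ (entryIdeal (phi k)).minimalPrimes := by
  have : (Pz k).FiniteHeight := ⟨Or.inr (by rw [height_Pz]; exact ENat.natCast_ne_top 2)⟩
  exact Ideal.mem_minimalPrimes_of_height_le entry_le_z (by rw [height_Pz, height_entry])

/-! ### the primary ideals (x², y) and (x², z) -/

theorem expand_y (F : R k) :
    F - πy F - X 0 * πy (pderiv 0 F) ∈ Ideal.span {(X 0 ^ 2 : R k), X 1} := by
  set J := Ideal.span {(X 0 ^ 2 : R k), X 1} with hJ
  have hx : (X 0 ^ 2 : R k) ∈ J := Ideal.subset_span (by simp)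
  have hy : (X 1 : R k) ∈ J := Ideal.subset_span (by simp)
  induction F using MvPolynomial.induction_on with
  | C a =>
    have : πy (C a : R k) = C a := by rw [← algebraMap_eq, AlgHom.commutes]
    rw [this, pderiv_C, map_zero, mul_zero, sub_self, sub_zero]; exact J.zero_mem
  | add p q hp hq =>
    have : p + q - πy (p + q) - X 0 * πy (pderiv 0 (p + q)) =
        (p - πy p - X 0 * πy (pderiv 0 p)) + (q - πy q - X 0 * πy (pderiv 0 q)) := by
      simp only [map_add]; ring
    rw [this]; exact J.add_mem hp hq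
  | mul_X p i hp =>
    have hπ : ∀ j, πy (X j : R k) = ![0, 0, X 2] j := fun j => aeval_X _ _
    rw [Derivation.leibniz, map_mul, map_add, smul_eq_mul, smul_eq_mul, map_mul, map_mul, hπ]
    fin_cases i
    · have h1 : πy (pderiv 0 (X 0 : R k)) = 1 := by simp
      show p * X 0 - πy p * 0 - X 0 * (πy p * πy (pderiv 0 (X 0)) + 0 * πy (pderiv 0 p)) ∈ J
      rw [h1]
      have : p * X 0 - πy p * 0 - X 0 * (πy p * 1 + 0 * πy (pderiv 0 p)) =
          X 0 * (p - πy p - X 0 * πy (pderiv 0 p)) + X 0 ^ 2 * πy (pderiv 0 p) := by ring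
      rw [this]
      exact J.add_mem (J.mul_mem_left _ hp) (J.mul_mem_right _ hx)
    · have h1 : πy (pderiv 0 (X 1 : R k)) = 0 := by
        rw [pderiv_X_of_ne (by decide)]; simp
      show p * X 1 - πy p * 0 - X 0 * (πy p * πy (pderiv 0 (X 1)) + 0 * πy (pderiv 0 p)) ∈ J
      rw [h1]
      have : p * X 1 - πy p * 0 - X 0 * (πy p * 0 + 0 * πy (pderiv 0 p)) = p * X 1 := by ring
      rw [this]
      exact J.mul_mem_left _ hy
    · have h1 : πy (pderiv 0 (X 2 : R k)) = 0 := by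
        rw [pderiv_X_of_ne (by decide)]; simp
      show p * X 2 - πy p * X 2 - X 0 * (πy p * πy (pderiv 0 (X 2)) + X 2 * πy (pderiv 0 p)) ∈ J
      rw [h1]
      have : p * X 2 - πy p * X 2 - X 0 * (πy p * 0 + X 2 * πy (pderiv 0 p)) =
          (p - πy p - X 0 * πy (pderiv 0 p)) * X 2 := by ring
      rw [this]
      exact J.mul_mem_right _ hp

theorem expand_z (F : R k) :
    F - πz F - X 0 * πz (pderiv 0 F) ∈ Ideal.span {(X 0 ^ 2 : R k), X 2} := by
  set J := Ideal.span {(X 0 ^ 2 : R k), X 2} with hJ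
  have hx : (X 0 ^ 2 : R k) ∈ J := Ideal.subset_span (by simp)
  have hy : (X 2 : R k) ∈ J := Ideal.subset_span (by simp)
  induction F using MvPolynomial.induction_on with
  | C a =>
    have : πz (C a : R k) = C a := by rw [← algebraMap_eq, AlgHom.commutes]
    rw [this, pderiv_C, map_zero, mul_zero, sub_self, sub_zero]; exact J.zero_mem
  | add p q hp hq =>
    have : p + q - πz (p + q) - X 0 * πz (pderiv 0 (p + q)) =
        (p - πz p - X 0 * πz (pderiv 0 p)) + (q - πz q - X 0 * πz (pderiv 0 q)) := by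
      simp only [map_add]; ring
    rw [this]; exact J.add_mem hp hq
  | mul_X p i hp =>
    have hπ : ∀ j, πz (X j : R k) = ![0, X 1, 0] j := fun j => aeval_X _ _
    rw [Derivation.leibniz, map_mul, map_add, smul_eq_mul, smul_eq_mul, map_mul, map_mul, hπ]
    fin_cases i
    · have h1 : πz (pderiv 0 (X 0 : R k)) = 1 := by simp
      show p * X 0 - πz p * 0 - X 0 * (πz p * πz (pderiv 0 (X 0)) + 0 * πz (pderiv 0 p)) ∈ J
      rw [h1]
      have : p * X 0 - πz p * 0 - X 0 * (πz p * 1 + 0 * πz (pderiv 0 p)) =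
          X 0 * (p - πz p - X 0 * πz (pderiv 0 p)) + X 0 ^ 2 * πz (pderiv 0 p) := by ring
      rw [this]
      exact J.add_mem (J.mul_mem_left _ hp) (J.mul_mem_right _ hx)
    · have h1 : πz (pderiv 0 (X 1 : R k)) = 0 := by
        rw [pderiv_X_of_ne (by decide)]; simp
      show p * X 1 - πz p * X 1 - X 0 * (πz p * πz (pderiv 0 (X 1)) + X 1 * πz (pderiv 0 p)) ∈ J
      rw [h1]
      have : p * X 1 - πz p * X 1 - X 0 * (πz p * 0 + X 1 * πz (pderiv 0 p)) =
          (p - πz p - X 0 * πz (pderiv 0 p)) * X 1 := by ring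
      rw [this]
      exact J.mul_mem_right _ hp
    · have h1 : πz (pderiv 0 (X 2 : R k)) = 0 := by
        rw [pderiv_X_of_ne (by decide)]; simp
      show p * X 2 - πz p * 0 - X 0 * (πz p * πz (pderiv 0 (X 2)) + 0 * πz (pderiv 0 p)) ∈ J
      rw [h1]
      have : p * X 2 - πz p * 0 - X 0 * (πz p * 0 + 0 * πz (pderiv 0 p)) = p * X 2 := by ring
      rw [this]
      exact J.mul_mem_left _ hy

theorem mem_Qy {F : R k} : F ∈ Ideal.span {(X 0 ^ 2 : R k), X 1} ↔
    πy F = 0 ∧ πy (pderiv 0 F) = 0 := by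
  constructor
  · intro h
    obtain ⟨a, b, rfl⟩ := Ideal.mem_span_pair.1 h
    have h1 : pderiv 0 (X 1 : R k) = 0 := pderiv_X_of_ne (by decide)
    simp [πy, h1]
  · rintro ⟨h1, h2⟩
    have := expand_y F
    rwa [h1, h2, mul_zero, sub_zero, sub_zero] at this

theorem mem_Qz {F : R k} : F ∈ Ideal.span {(X 0 ^ 2 : R k), X 2} ↔
    πz F = 0 ∧ πz (pderiv 0 F) = 0 := by
  constructor
  · intro h
    obtain ⟨a, b, rfl⟩ := Ideal.mem_span_pair.1 h
    have h1 : pderiv 0 (X 2 : R k) = 0 := pderiv_X_of_ne (by decide)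
    simp [πz, h1]
  · rintro ⟨h1, h2⟩
    have := expand_z F
    rwa [h1, h2, mul_zero, sub_zero, sub_zero] at this

theorem primary_y {s F : R k} (hs : s ∉ Py k)
    (h : s * F ∈ Ideal.span {(X 0 ^ 2 : R k), X 1}) : F ∈ Ideal.span {(X 0 ^ 2 : R k), X 1} := by
  have hs0 : πy s ≠ 0 := fun h0 => hs (mem_of_retr retr_y h0)
  rw [mem_Qy] at h ⊢
  rw [Derivation.leibniz, map_mul, map_add, smul_eq_mul, smul_eq_mul, map_mul, map_mul] at h
  obtain ⟨h1, h2⟩ := h
  have hF : πy F = 0 := (mul_eq_zero.1 h1).resolve_left hs0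
  rw [hF, zero_mul, add_zero] at h2
  exact ⟨hF, (mul_eq_zero.1 h2).resolve_left hs0⟩

theorem primary_z {s F : R k} (hs : s ∉ Pz k)
    (h : s * F ∈ Ideal.span {(X 0 ^ 2 : R k), X 2}) : F ∈ Ideal.span {(X 0 ^ 2 : R k), X 2} := by
  have hs0 : πz s ≠ 0 := fun h0 => hs (mem_of_retr retr_z h0)
  rw [mem_Qz] at h ⊢
  rw [Derivation.leibniz, map_mul, map_add, smul_eq_mul, smul_eq_mul, map_mul, map_mul] at h
  obtain ⟨h1, h2⟩ := h
  have hF : πz F = 0 := (mul_eq_zero.1 h1).resolve_left hs0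
  rw [hF, zero_mul, add_zero] at h2
  exact ⟨hF, (mul_eq_zero.1 h2).resolve_left hs0⟩

theorem entry_le_Qy : entryIdeal (phi k) ≤ Ideal.span {(X 0 ^ 2 : R k), X 1} := by
  set J := Ideal.span {(X 0 ^ 2 : R k), X 1} with hJ
  have hx : (X 0 ^ 2 : R k) ∈ J := Ideal.subset_span (by simp)
  have hy : (X 1 : R k) ∈ J := Ideal.subset_span (by simp)
  refine entry_le ?_ ?_ (J.mul_mem_right _ hx) (J.mul_mem_right _ hx) (J.mul_mem_right _ hy)
  · rw [pow_succ]; exact J.mul_mem_right _ hx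
  · rw [pow_two, mul_assoc]; exact J.mul_mem_right _ hy

theorem entry_le_Qz : entryIdeal (phi k) ≤ Ideal.span {(X 0 ^ 2 : R k), X 2} := by
  set J := Ideal.span {(X 0 ^ 2 : R k), X 2} with hJ
  have hx : (X 0 ^ 2 : R k) ∈ J := Ideal.subset_span (by simp)
  have hy : (X 2 : R k) ∈ J := Ideal.subset_span (by simp)
  refine entry_le ?_ (J.mul_mem_left _ hy) (J.mul_mem_right _ hx) (J.mul_mem_right _ hx) ?_
  · rw [pow_succ]; exact J.mul_mem_right _ hx
  · rw [pow_two, ← mul_assoc]; exact J.mul_mem_left _ hy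

theorem y_not_z : (X 1 : R k) ∉ Pz k := by
  intro h
  have := πz_mem h
  simp [πz] at this

theorem z_not_y : (X 2 : R k) ∉ Py k := by
  intro h
  have := πy_mem h
  simp [πy] at this

theorem component (r : R k) :
    r ∈ Ideal.span {(X 0 ^ 2 : R k), X 1 * X 2} ↔ InCodimTwoPart (entryIdeal (phi k)) r := by
  constructor
  · intro hr P hP hPh
    have : P.IsPrime := hP.1.1
    obtain ⟨hx, -⟩ := prime_entry hP.1.2
    have key : ∀ s : R k, s * X 0 ^ 2 ∈ entryIdeal (phi k) → s * (X 1 * X 2) ∈ entryIdeal (phi k) →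
        s * r ∈ entryIdeal (phi k) := by
      intro s h1 h2
      obtain ⟨a, b, rfl⟩ := Ideal.mem_span_pair.1 hr
      have : s * (a * X 0 ^ 2 + b * (X 1 * X 2)) = a * (s * X 0 ^ 2) + b * (s * (X 1 * X 2)) := by
        ring
      rw [this]
      exact Ideal.add_mem _ (Ideal.mul_mem_left _ _ h1) (Ideal.mul_mem_left _ _ h2)
    by_cases hy : (X 1 : R k) ∈ P
    · refine ⟨X 2, ?_, key _ ?_ ?_⟩
      · intro hz
        have hlt : Py k < P := by
          refine lt_of_le_of_ne ?_ ?_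
          · unfold Py
            rw [Ideal.span_le]
            rintro _ (rfl | rfl)
            · exact hx
            · exact hy
          · intro h
            exact z_not_y (k := k) (by rw [h]; exact hz)
        have := Ideal.height_add_one_le_of_lt_of_isPrime hlt
        rw [height_Py, hPh] at this
        exact absurd this (by decide)
      · have := e3 (k := k)
        rwa [mul_comm] at this
      · have := e5 (k := k)
        convert! this using 1
        ring
    · refine ⟨X 1, hy, key _ ?_ ?_⟩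
      · have := e4 (k := k)
        rwa [mul_comm] at this
      · have := e2 (k := k)
        convert! this using 1
        ring
  · intro h
    obtain ⟨s, hs, hsr⟩ := h _ min_y height_Py
    obtain ⟨t, ht, htr⟩ := h _ min_z height_Pz
    have h1 := primary_y hs (entry_le_Qy hsr)
    have h2 := primary_z ht (entry_le_Qz htr)
    obtain ⟨a, b, rfl⟩ := Ideal.mem_span_pair.1 h1
    have h3 : X 1 * b ∈ Ideal.span {(X 0 ^ 2 : R k), X 2} := by
      have hx : (X 0 ^ 2 : R k) ∈ Ideal.span {(X 0 ^ 2 : R k), X 2} :=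
        Ideal.subset_span (by simp)
      have h4 := Ideal.sub_mem _ h2 (Ideal.mul_mem_left _ a hx)
      have h5 : a * X 0 ^ 2 + b * X 1 - a * X 0 ^ 2 = X 1 * b := by ring
      rwa [h5] at h4
    have h4 := primary_z y_not_z h3
    obtain ⟨c, d, rfl⟩ := Ideal.mem_span_pair.1 h4
    rw [Ideal.mem_span_pair]
    exact ⟨a + c * X 1, d, by ring⟩

/-! ### the regular sequence -/

theorem reg : RingTheory.Sequence.IsRegular (R k) [(X 0 ^ 2 : R k), X 1 * X 2] := by
  have hw : RingTheory.Sequence.IsWeaklyRegular (R k) [(X 0 ^ 2 : R k), X 1 * X 2] := by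
    rw [RingTheory.Sequence.isWeaklyRegular_cons_iff]
    constructor
    · intro a b hab
      have : X 0 ^ 2 * a = X 0 ^ 2 * b := hab
      exact mul_left_cancel₀ (pow_ne_zero 2 (X_ne_zero 0)) this
    · rw [RingTheory.Sequence.isWeaklyRegular_singleton_iff]
      rw [isSMulRegular_iff_right_eq_zero_of_smul]
      intro m hm
      obtain ⟨a, rfl⟩ := Submodule.mkQ_surjective _ m
      have h1 : (Submodule.mkQ ((X 0 ^ 2 : R k) • (⊤ : Submodule (R k) (R k)))) ((X 1 * X 2) * a)
          = 0 := by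
        have : (X 1 * X 2) * a = (X 1 * X 2 : R k) • a := rfl
        rw [this, map_smul]; exact hm
      rw [Submodule.mkQ_apply, Submodule.Quotient.mk_eq_zero] at h1 ⊢
      obtain ⟨b, -, hb⟩ := (Submodule.mem_smul_pointwise_iff_exists _ _ _).1 h1
      have hdvd : (X 0 ^ 2 : R k) ∣ (X 1 * X 2) * a := ⟨b, hb.symm⟩
      have hnd : ¬ ((X 0 : R k) ∣ X 1 * X 2) := by
        intro h
        rcases (X_prime (i := (0 : Fin 3)) (R := k)).dvd_or_dvd h with h | h
        · exact not_dvd_y h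
        · exact not_dvd_z h
      have := (X_prime (i := (0 : Fin 3)) (R := k)).pow_dvd_of_dvd_mul_left 2 hnd hdvd
      obtain ⟨c, hc⟩ := this
      exact (Submodule.mem_smul_pointwise_iff_exists _ _ _).2 ⟨c, trivial, hc.symm⟩
  refine ⟨hw, ?_⟩
  intro h
  have h1 : (1 : R k) ∈ Ideal.ofList [(X 0 ^ 2 : R k), X 1 * X 2] • (⊤ : Submodule (R k) (R k)) := by
    rw [← h]; trivial
  have hle : Ideal.ofList [(X 0 ^ 2 : R k), X 1 * X 2] ≤ Py k := by
    unfold Ideal.ofList
    rw [Ideal.span_le]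
    intro r hr
    simp only [List.mem_cons, List.not_mem_nil, or_false, Set.mem_ofPred_eq] at hr
    rcases hr with rfl | rfl
    · exact (Py k).pow_mem_of_mem x_mem_y 2 (by norm_num)
    · exact (Py k).mul_mem_right _ y_mem_y
  have h2 : (1 : R k) ∈ Py k := by
    have h3 : Ideal.ofList [(X 0 ^ 2 : R k), X 1 * X 2] • (⊤ : Submodule (R k) (R k)) ≤ Py k := by
      rw [Submodule.smul_le]
      intro r hr n _
      exact (Py k).mul_mem_right _ (hle hr)
    exact h3 h1
  exact (Ideal.ne_top_iff_one _).1 (Ideal.IsPrime.ne_top (prime_Py (k := k))) h2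

theorem admissible : IsAdmissible (phi k) 3 3 where
  two_le := by norm_num
  le := le_refl 3
  left := by
    intro i
    fin_cases i
    · exact (isHomogeneous_X _ 0).pow 3
    · exact ((isHomogeneous_X _ 0).pow 2).mul (isHomogeneous_X _ 2)
    · exact (isHomogeneous_X _ 1).mul ((isHomogeneous_X _ 2).pow 2)
  right := by
    intro i
    fin_cases i
    · exact ((isHomogeneous_X _ 1).pow 2).mul (isHomogeneous_X _ 2)
    · exact ((isHomogeneous_X _ 0).pow 2).mul (isHomogeneous_X _ 1)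
    · exact (isHomogeneous_X _ 0).pow 3
  minors := height_minor
  entries := height_entry
  component := ⟨X 0 ^ 2, X 1 * X 2, 2, 2, (isHomogeneous_X _ 0).pow 2,
    (isHomogeneous_X _ 1).mul (isHomogeneous_X _ 2), reg, component⟩

end Pool.Agent.Q29.RS
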