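import Mathlib

/-! Computable sparse integer polynomials in three variables, used to check linear
independence over every field. -/

open MvPolynomial

namespace Pool.Agent.Q29.RS

abbrev Mon := ℕ × ℕ × ℕ

/-- the exponent vector of a triple -/
noncomputable def fs (m : Mon) : Fin 3 →₀ ℕ := Finsupp.equivFunOnFinite.symm ![m.1, m.2.1, m.2.2]

theorem fs_zero' (m : Mon) : fs m 0 = m.1 := rfl
theorem fs_one' (m : Mon) : fs m 1 = m.2.1 := rfl
theorem fs_two' (m : Mon) : fs m 2 = m.2.2 := rfl

theorem fs_inj {m n : Mon} : fs m = fs n ↔ m = n := by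
  constructor
  · intro h
    have h' : (![m.1, m.2.1, m.2.2] : Fin 3 → ℕ) = ![n.1, n.2.1, n.2.2] :=
      Finsupp.equivFunOnFinite.symm.injective h
    have h0 := congrFun h' 0
    have h1 := congrFun h' 1
    have h2 := congrFun h' 2
    simp at h0 h1 h2
    ext <;> assumption
  · rintro rfl; rfl

theorem fs_add (m n : Mon) : fs (m + n) = fs m + fs n := by
  ext i
  fin_cases i <;> rfl

theorem fs_degree (m : Mon) : (fs m).degree = m.1 + m.2.1 + m.2.2 := by
  rw [Finsupp.degree_eq_sum, Fin.sum_univ_three]; rfl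

theorem exists_fs (f : Fin 3 →₀ ℕ) : fs (f 0, f 1, f 2) = f := by
  ext i
  fin_cases i <;> rfl

variable (k : Type*) [CommRing k]

noncomputable def ev (l : List (Mon × ℤ)) : MvPolynomial (Fin 3) k :=
  (l.map fun t => monomial (fs t.1) ((t.2 : ℤ) : k)).sum

theorem ev_nil : ev k [] = 0 := rfl

theorem ev_cons (t : Mon × ℤ) (l : List (Mon × ℤ)) :
    ev k (t :: l) = monomial (fs t.1) ((t.2 : ℤ) : k) + ev k l := rfl

theorem ev_append (l m : List (Mon × ℤ)) : ev k (l ++ m) = ev k l + ev k m := by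
  simp [ev]

def mulL (l m : List (Mon × ℤ)) : List (Mon × ℤ) :=
  l.flatMap fun s => m.map fun t => (s.1 + t.1, s.2 * t.2)

theorem ev_mulL (l m : List (Mon × ℤ)) : ev k (mulL l m) = ev k l * ev k m := by
  induction l with
  | nil => simp [mulL, ev_nil]
  | cons s l ih =>
    have h : mulL (s :: l) m = (m.map fun t => (s.1 + t.1, s.2 * t.2)) ++ mulL l m := rfl
    rw [h, ev_append, ih, ev_cons, add_mul]
    congr 1
    clear h ih
    induction m with
    | nil => simp [ev_nil]
    | cons t m ih =>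
      rw [List.map_cons, ev_cons, ih, ev_cons, mul_add]
      congr 1
      rw [monomial_mul, fs_add]
      simp

def powL (l : List (Mon × ℤ)) : ℕ → List (Mon × ℤ)
  | 0 => [((0, 0, 0), 1)]
  | n + 1 => mulL l (powL l n)

theorem ev_one : ev k [((0, 0, 0), 1)] = 1 := by
  rw [ev_cons, ev_nil]
  have : fs (0, 0, 0) = 0 := by
    ext i; fin_cases i <;> rfl
  simp [this]

theorem ev_powL (l : List (Mon × ℤ)) (n : ℕ) : ev k (powL l n) = ev k l ^ n := by
  induction n with
  | zero => simp [powL, ev_one]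
  | succ n ih => rw [powL, ev_mulL, ih, pow_succ']

def cf (m : Mon) : List (Mon × ℤ) → ℤ
  | [] => 0
  | t :: l => (if t.1 = m then t.2 else 0) + cf m l

theorem coeff_ev (m : Mon) (l : List (Mon × ℤ)) : coeff (fs m) (ev k l) = ((cf m l : ℤ) : k) := by
  induction l with
  | nil => simp [ev_nil, cf]
  | cons t l ih =>
    rw [ev_cons, coeff_add, ih, cf, coeff_monomial]
    by_cases h : t.1 = m
    · simp [h]
    · have : fs t.1 ≠ fs m := fun h' => h (fs_inj.1 h')
      simp [h, this]

def pair (w l : List (Mon × ℤ)) : ℤ := (w.map fun t => t.2 * cf t.1 l).sum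

noncomputable def lin (w : List (Mon × ℤ)) : MvPolynomial (Fin 3) k →ₗ[k] k :=
  (w.map fun t => ((t.2 : ℤ) : k) • lcoeff k (fs t.1)).sum

theorem lin_apply_ev (w l : List (Mon × ℤ)) : lin k w (ev k l) = ((pair w l : ℤ) : k) := by
  induction w with
  | nil => simp [lin, pair]
  | cons t w ih =>
    have h1 : lin k (t :: w) = ((t.2 : ℤ) : k) • lcoeff k (fs t.1) + lin k w := rfl
    have h2 : pair (t :: w) l = t.2 * cf t.1 l + pair w l := rfl
    rw [h1, h2, LinearMap.add_apply, ih, LinearMap.smul_apply, lcoeff_apply, coeff_ev]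
    push_cast
    rw [smul_eq_mul]

end Pool.Agent.Q29.RS
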