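import Pool.Agent.Q29.RS.Lst

namespace Pool.Agent.Q29.RS

def d1 : List (Mon × ℤ) := [((5, 0, 1), 1), ((2, 2, 2), -1)]
def d2 : List (Mon × ℤ) := [((0, 3, 3), 1), ((6, 0, 0), -1)]
def d3 : List (Mon × ℤ) := [((5, 1, 0), 1), ((2, 2, 2), -1)]

/-- the product of the monomial with exponent u and of the monomial with exponent t in the minors -/
def Ll (u t : Mon) : List (Mon × ℤ) :=
  mulL [(u, 1)] (mulL (powL d1 t.1) (mulL (powL d2 t.2.1) (powL d3 t.2.2)))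

def T13 : List ((Mon × Mon) × List (Mon × ℤ)) := [
  (((1, 0, 0), (3, 0, 0)), [((10, 3, 6), 1), ((16, 0, 3), 1)]),
  (((1, 0, 0), (2, 1, 0)), [((5, 6, 8), 2), ((11, 3, 5), 1)]),
  (((1, 0, 0), (2, 0, 1)), [((7, 5, 7), -1), ((10, 3, 6), -3), ((13, 2, 4), -1), ((16, 0, 3), -3)]),
  (((1, 0, 0), (1, 2, 0)), [((0, 9, 10), 1), ((18, 0, 1), 1)]),
  (((1, 0, 0), (1, 1, 1)), [((2, 8, 9), -2), ((5, 6, 8), -4), ((8, 5, 6), -1), ((11, 3, 5), -2)]),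
  (((1, 0, 0), (1, 0, 2)), [((7, 7, 5), -1), ((10, 6, 3), -3), ((13, 4, 2), -1), ((16, 3, 0), -3)]),
  (((1, 0, 0), (0, 3, 0)), [((1, 9, 9), 1)]),
  (((1, 0, 0), (0, 2, 1)), [((0, 10, 9), 1), ((18, 1, 0), 1)]),
  (((1, 0, 0), (0, 1, 2)), [((5, 8, 6), 2), ((11, 5, 3), 1)]),
  (((1, 0, 0), (0, 0, 3)), [((10, 6, 3), 1), ((16, 3, 0), 1)]),
  (((0, 1, 0), (3, 0, 0)), [((12, 2, 5), 1), ((15, 0, 4), 3), ((15, 1, 3), 1)]),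
  (((0, 1, 0), (2, 1, 0)), [((4, 8, 7), 1), ((7, 7, 5), 1), ((10, 6, 3), 1)]),
  (((0, 1, 0), (2, 0, 1)), [((9, 6, 4), 1), ((12, 5, 2), 2), ((15, 4, 0), 3)]),
  (((0, 1, 0), (1, 2, 0)), [((2, 9, 8), -1), ((5, 8, 6), -1)]),
  (((0, 1, 0), (1, 1, 1)), [((7, 7, 5), -1), ((10, 6, 3), -2)]),
  (((0, 1, 0), (1, 0, 2)), [((12, 5, 2), -1), ((15, 4, 0), -3)]),
  (((0, 1, 0), (0, 3, 0)), [((0, 10, 9), 1)]),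
  (((0, 1, 0), (0, 2, 1)), [((5, 8, 6), 1)]),
  (((0, 1, 0), (0, 1, 2)), [((10, 6, 3), 1)]),
  (((0, 1, 0), (0, 0, 3)), [((15, 4, 0), 1)]),
  (((0, 0, 1), (3, 0, 0)), [((15, 0, 4), 1)]),
  (((0, 0, 1), (2, 1, 0)), [((10, 3, 6), 1)]),
  (((0, 0, 1), (2, 0, 1)), [((12, 2, 5), -1), ((15, 0, 4), -3)]),
  (((0, 0, 1), (1, 2, 0)), [((5, 6, 8), 1)]),
  (((0, 0, 1), (1, 1, 1)), [((7, 5, 7), -1), ((10, 3, 6), -2)]),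
  (((0, 0, 1), (1, 0, 2)), [((9, 4, 6), 1), ((12, 2, 5), 2), ((15, 0, 4), 3)]),
  (((0, 0, 1), (0, 3, 0)), [((0, 9, 10), 1)]),
  (((0, 0, 1), (0, 2, 1)), [((2, 8, 9), -1), ((5, 6, 8), -1)]),
  (((0, 0, 1), (0, 1, 2)), [((4, 7, 8), 1), ((7, 5, 7), 1), ((10, 3, 6), 1)]),
  (((0, 0, 1), (0, 0, 3)), [((12, 5, 2), 1), ((15, 3, 1), 1), ((15, 4, 0), 3)])]
def T22 : List ((Mon × Mon) × List (Mon × ℤ)) := [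
  (((2, 0, 0), (2, 0, 0)), [((0, 6, 8), 1), ((6, 3, 5), 1), ((12, 0, 2), 1)]),
  (((2, 0, 0), (1, 1, 0)), [((1, 6, 7), 1), ((13, 0, 1), -1)]),
  (((2, 0, 0), (1, 0, 1)), [((0, 6, 8), -2), ((3, 5, 6), -1), ((6, 3, 5), -2), ((9, 2, 3), -1), ((12, 0, 2), -2)]),
  (((2, 0, 0), (0, 2, 0)), [((14, 0, 0), 1)]),
  (((2, 0, 0), (0, 1, 1)), [((1, 7, 6), 1), ((13, 1, 0), -1)]),
  (((2, 0, 0), (0, 0, 2)), [((0, 8, 6), 1), ((6, 5, 3), 1), ((12, 2, 0), 1)]),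
  (((1, 1, 0), (2, 0, 0)), [((2, 7, 5), 2), ((5, 5, 4), 1), ((5, 6, 3), 2), ((8, 4, 2), 1), ((11, 3, 0), 1)]),
  (((1, 1, 0), (1, 1, 0)), [((0, 8, 6), -2), ((3, 6, 5), -1), ((6, 5, 3), -1)]),
  (((1, 1, 0), (1, 0, 1)), [((2, 7, 5), -1), ((5, 6, 3), -2), ((8, 4, 2), -1), ((11, 3, 0), -2)]),
  (((1, 1, 0), (0, 2, 0)), [((1, 7, 6), 1)]),
  (((1, 1, 0), (0, 1, 1)), [((0, 8, 6), 2), ((6, 5, 3), 1)]),
  (((1, 1, 0), (0, 0, 2)), [((5, 6, 3), 1), ((11, 3, 0), 1)]),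
  (((1, 0, 1), (2, 0, 0)), [((5, 3, 6), 1), ((11, 0, 3), 1)]),
  (((1, 0, 1), (1, 1, 0)), [((0, 6, 8), 2), ((6, 3, 5), 1)]),
  (((1, 0, 1), (1, 0, 1)), [((2, 5, 7), -1), ((5, 3, 6), -2), ((8, 2, 4), -1), ((11, 0, 3), -2)]),
  (((1, 0, 1), (0, 2, 0)), [((1, 6, 7), 1)]),
  (((1, 0, 1), (0, 1, 1)), [((0, 6, 8), -2), ((3, 5, 6), -1), ((6, 3, 5), -1)]),
  (((1, 0, 1), (0, 0, 2)), [((5, 6, 3), 1), ((8, 4, 2), 1), ((11, 2, 1), 1), ((11, 3, 0), 2)]),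
  (((0, 2, 0), (2, 0, 0)), [((4, 6, 4), 1), ((7, 5, 2), 1), ((10, 4, 0), 1)]),
  (((0, 2, 0), (1, 1, 0)), [((2, 7, 5), -1), ((5, 6, 3), -1)]),
  (((0, 2, 0), (1, 0, 1)), [((7, 5, 2), -1), ((10, 4, 0), -2)]),
  (((0, 2, 0), (0, 2, 0)), [((0, 8, 6), 1)]),
  (((0, 2, 0), (0, 1, 1)), [((5, 6, 3), 1)]),
  (((0, 2, 0), (0, 0, 2)), [((10, 4, 0), 1)]),
  (((0, 1, 1), (2, 0, 0)), [((7, 2, 5), 1), ((10, 0, 4), 2), ((10, 1, 3), 1)]),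
  (((0, 1, 1), (1, 1, 0)), [((2, 6, 6), -1), ((14, 0, 0), 1)]),
  (((0, 1, 1), (1, 0, 1)), [((1, 6, 7), -1), ((4, 4, 6), -2), ((7, 2, 5), -3), ((7, 3, 4), -1), ((10, 0, 4), -4), ((10, 1, 3), -2), ((13, 0, 1), -1)]),
  (((0, 1, 1), (0, 2, 0)), [((0, 7, 7), 1)]),
  (((0, 1, 1), (0, 0, 2)), [((7, 5, 2), 1), ((10, 3, 1), 1), ((10, 4, 0), 2)]),
  (((0, 0, 2), (2, 0, 0)), [((10, 0, 4), 1)]),
  (((0, 0, 2), (1, 1, 0)), [((5, 3, 6), 1)]),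
  (((0, 0, 2), (1, 0, 1)), [((7, 2, 5), -1), ((10, 0, 4), -2)]),
  (((0, 0, 2), (0, 2, 0)), [((0, 6, 8), 1)]),
  (((0, 0, 2), (0, 1, 1)), [((2, 5, 7), -1), ((5, 3, 6), -1)]),
  (((0, 0, 2), (0, 0, 2)), [((4, 4, 6), 1), ((7, 2, 5), 1), ((10, 0, 4), 1)])]

def mons : ℕ → Finset Mon
  | 0 => {(0, 0, 0)}
  | 1 => {(1, 0, 0), (0, 1, 0), (0, 0, 1)}
  | 2 => {(2, 0, 0), (1, 1, 0), (1, 0, 1), (0, 2, 0), (0, 1, 1), (0, 0, 2)}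
  | 3 => {(3, 0, 0), (2, 1, 0), (2, 0, 1), (1, 2, 0), (1, 1, 1), (1, 0, 2), (0, 3, 0), (0, 2, 1),
      (0, 1, 2), (0, 0, 3)}
  | _ => ∅

set_option maxRecDepth 100000 in
theorem check13 : ∀ e ∈ T13, ∀ u ∈ mons 1, ∀ t ∈ mons 3,
    pair e.2 (Ll u t) = if e.1 = (u, t) then 1 else 0 := by decide +kernel

set_option maxRecDepth 100000 in
theorem cover13 : ∀ u ∈ mons 1, ∀ t ∈ mons 3, ∃ e ∈ T13, e.1 = (u, t) := by decide +kernel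

/-- the coefficients of the relation of bidegree (2, 2) -/
def hc (s : Mon × Mon) : ℤ :=
  if s = ((0, 1, 1), (0, 1, 1)) then -1 else
  if s = ((0, 1, 1), (1, 1, 0)) then 1 else
  if s = ((1, 0, 1), (0, 0, 2)) then -1 else
  if s = ((1, 1, 0), (2, 0, 0)) then 1 else 0

set_option maxRecDepth 100000 in
theorem check22 : ∀ e ∈ T22, ∀ u ∈ mons 2, ∀ t ∈ mons 2,
    pair e.2 (Ll u t) = (if e.1 = (u, t) then 1 else 0) +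
      (if (u, t) = ((0, 1, 1), (0, 1, 1)) then hc e.1 else 0) := by decide +kernel

set_option maxRecDepth 100000 in
theorem cover22 : ∀ u ∈ mons 2, ∀ t ∈ mons 2, (u, t) = ((0, 1, 1), (0, 1, 1)) ∨ ∃ e ∈ T22, e.1 = (u, t) := by
  decide +kernel

end Pool.Agent.Q29.RS
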