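import Pool.Agent.Q29.RS.Ex
import Pool.Agent.Q29.RS.Tab

open MvPolynomial

namespace Pool.Agent.Q29.RS

variable {k : Type*} [Field k]

/-! ### calculus of bidegrees -/

theorem IsBihom.add {F G : S k} {i j : ℕ} (hF : IsBihom F i j) (hG : IsBihom G i j) :
    IsBihom (F + G) i j :=
  ⟨hF.1.add hG.1, fun m => by rw [coeff_add]; exact (hF.2 m).add (hG.2 m)⟩

theorem IsBihom.neg {F : S k} {i j : ℕ} (hF : IsBihom F i j) : IsBihom (-F) i j :=
  ⟨hF.1.neg, fun m => by rw [coeff_neg]; exact (hF.2 m).neg⟩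

theorem IsBihom.sub {F G : S k} {i j : ℕ} (hF : IsBihom F i j) (hG : IsBihom G i j) :
    IsBihom (F - G) i j := by
  rw [sub_eq_add_neg]; exact hF.add hG.neg

theorem IsBihom.mul {F G : S k} {i j i' j' : ℕ} (hF : IsBihom F i j) (hG : IsBihom G i' j') :
    IsBihom (F * G) (i + i') (j + j') := by
  classical
  refine ⟨hF.1.mul hG.1, fun m => ?_⟩
  rw [coeff_mul]
  exact IsHomogeneous.sum _ _ _ fun x _ => (hF.2 x.1).mul (hG.2 x.2)

theorem IsBihom.cast {F : S k} {i j i' j' : ℕ} (hF : IsBihom F i j) (hi : i = i') (hj : j = j') :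
    IsBihom F i' j' := by
  subst hi; subst hj; exact hF

theorem isBihom_t (i : Fin 3) : IsBihom (X i : S k) 0 1 := by
  classical
  refine ⟨isHomogeneous_X _ i, fun m => ?_⟩
  rw [coeff_X]
  split_ifs
  · exact isHomogeneous_one _ _
  · exact isHomogeneous_zero _ _ _

theorem isBihom_C {r : R k} {d : ℕ} (hr : r.IsHomogeneous d) : IsBihom (C r : S k) d 0 := by
  classical
  refine ⟨isHomogeneous_C _ _, fun m => ?_⟩
  rw [coeff_C]
  split_ifs
  · exact hr
  · exact isHomogeneous_zero _ _ _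

theorem isBihom_x (i : Fin 3) : IsBihom (C (X i) : S k) 1 0 := isBihom_C (isHomogeneous_X _ i)

theorem isBihom_one : IsBihom (1 : S k) 0 0 := by
  have := isBihom_C (k := k) (isHomogeneous_one (Fin 3) k)
  rwa [C_1] at this

theorem IsBihom.pow {F : S k} {i j : ℕ} (hF : IsBihom F i j) (n : ℕ) :
    IsBihom (F ^ n) (n * i) (n * j) := by
  induction n with
  | zero => simpa using isBihom_one
  | succ n ih => rw [pow_succ]; exact (ih.mul hF).cast (by ring) (by ring)

/-! ### the matrix -/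

noncomputable def phi (k : Type*) [Field k] : Matrix (Fin 3) (Fin 2) (R k) :=
  !![X 0 ^ 3, X 1 ^ 2 * X 2; X 0 ^ 2 * X 2, X 0 ^ 2 * X 1; X 1 * X 2 ^ 2, X 0 ^ 3]

theorem minor_zero : minor (phi k) 0 = X 0 ^ 5 * X 2 - X 0 ^ 2 * X 1 ^ 2 * X 2 ^ 2 := by
  simp [minor, phi]; ring

theorem minor_one : minor (phi k) 1 = X 1 ^ 3 * X 2 ^ 3 - X 0 ^ 6 := by
  simp [minor, phi]; ring

theorem minor_two : minor (phi k) 2 = X 0 ^ 5 * X 1 - X 0 ^ 2 * X 1 ^ 2 * X 2 ^ 2 := by
  simp [minor, phi]; ring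

theorem mX {A : Type*} [CommRing A] (t : Mon) :
    (monomial (fs t) (1 : A)) = X 0 ^ t.1 * X 1 ^ t.2.1 * X 2 ^ t.2.2 := by
  rw [monomial_eq, Finsupp.prod_fintype _ _ (by intro i; simp), Fin.prod_univ_three]
  simp [fs_zero', fs_one', fs_two']

theorem ev_d1 : ev k d1 = minor (phi k) 0 := by
  have h1 := mX (A := k) (5, 0, 1)
  have h2 := mX (A := k) (2, 2, 2)
  rw [minor_zero, d1, ev_cons, ev_cons, ev_nil]
  simp only [Int.cast_one, Int.cast_neg, map_neg, h1, h2]
  ring

theorem ev_d2 : ev k d2 = minor (phi k) 1 := by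
  have h1 := mX (A := k) (0, 3, 3)
  have h2 := mX (A := k) (6, 0, 0)
  rw [minor_one, d2, ev_cons, ev_cons, ev_nil]
  simp only [Int.cast_one, Int.cast_neg, map_neg, h1, h2]
  ring

theorem ev_d3 : ev k d3 = minor (phi k) 2 := by
  have h1 := mX (A := k) (5, 1, 0)
  have h2 := mX (A := k) (2, 2, 2)
  rw [minor_two, d3, ev_cons, ev_cons, ev_nil]
  simp only [Int.cast_one, Int.cast_neg, map_neg, h1, h2]
  ring

theorem ev_Ll (u t : Mon) : ev k (Ll u t) = monomial (fs u) 1 *
    (minor (phi k) 0 ^ t.1 * minor (phi k) 1 ^ t.2.1 * minor (phi k) 2 ^ t.2.2) := by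
  rw [Ll, ev_mulL, ev_mulL, ev_mulL, ev_powL, ev_powL, ev_powL, ev_d1, ev_d2, ev_d3, ev_cons,
    ev_nil]
  simp only [Int.cast_one, add_zero]
  ring

theorem minor_hom (i : Fin 3) : (minor (phi k) i).IsHomogeneous 6 := by
  have hX : ∀ j : Fin 3, (X j : R k).IsHomogeneous 1 := fun j => isHomogeneous_X _ j
  have hsub : ∀ p q : R k, p.IsHomogeneous 6 → q.IsHomogeneous 6 → (p - q).IsHomogeneous 6 :=
    fun p q hp hq => hp.sub hq
  have h222 : (X 0 ^ 2 * X 1 ^ 2 * X 2 ^ 2 : R k).IsHomogeneous 6 :=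
    (((hX 0).pow 2).mul ((hX 1).pow 2)).mul ((hX 2).pow 2)
  fin_cases i
  · show (minor (phi k) 0).IsHomogeneous 6
    rw [minor_zero]
    exact hsub _ _ (((hX 0).pow 5).mul (hX 2)) h222
  · show (minor (phi k) 1).IsHomogeneous 6
    rw [minor_one]
    exact hsub _ _ (((hX 1).pow 3).mul ((hX 2).pow 3)) ((hX 0).pow 6)
  · show (minor (phi k) 2).IsHomogeneous 6
    rw [minor_two]
    exact hsub _ _ (((hX 0).pow 5).mul (hX 1)) h222

/-! ### expansion of homogeneous polynomials -/

theorem mem_mons {n : ℕ} (hn : n ≤ 3) {a b c : ℕ} (h : a + b + c = n) : (a, b, c) ∈ mons n := by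
  interval_cases n <;>
  · have ha : a ≤ 3 := by omega
    have hb : b ≤ 3 := by omega
    have hc : c ≤ 3 := by omega
    interval_cases a <;> interval_cases b <;> interval_cases c <;>
      first | (exfalso; omega) | decide

theorem expand {A : Type*} [CommRing A] {n : ℕ} (hn : n ≤ 3) {P : MvPolynomial (Fin 3) A}
    (hP : P.IsHomogeneous n) : P = ∑ t ∈ mons n, monomial (fs t) (coeff (fs t) P) := by
  classical
  ext1 m
  rw [coeff_sum]
  simp only [coeff_monomial]
  by_cases hm : coeff m P = 0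
  · rw [hm]
    symm
    apply Finset.sum_eq_zero
    intro t _
    split_ifs with h
    · rw [h, hm]
    · rfl
  · have hdeg : m.degree = n := by
      have := hP hm
      rw [← this, Finsupp.degree_eq_weight_one]; rfl
    have hm' : m = fs (m 0, m 1, m 2) := (exists_fs m).symm
    have hmem : (m 0, m 1, m 2) ∈ mons n := by
      apply mem_mons hn
      rw [← hdeg, Finsupp.degree_eq_sum, Fin.sum_univ_three]
    rw [Finset.sum_eq_single (m 0, m 1, m 2)]
    · rw [if_pos hm'.symm, ← hm']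
    · intro t _ ht
      rw [if_neg]
      intro h
      apply ht
      rw [hm'] at h
      exact fs_inj.1 h
    · intro h; exact absurd hmem h

/-- the coefficient of `x^u t^t` -/
noncomputable def cc (F : S k) (u t : Mon) : k := coeff (fs u) (coeff (fs t) F)

theorem eq_zero_of_cc {F : S k} {i j : ℕ} (hi : i ≤ 3) (hj : j ≤ 3) (hF : IsBihom F i j)
    (h : ∀ u ∈ mons i, ∀ t ∈ mons j, cc F u t = 0) : F = 0 := by
  rw [expand hj hF.1]
  apply Finset.sum_eq_zero
  intro t ht
  rw [expand hi (hF.2 (fs t))]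
  rw [Finset.sum_eq_zero]
  · simp
  · intro u hu
    have := h u hu t ht
    unfold cc at this
    rw [this]; simp

theorem evm_eq_sum {F : S k} {i j : ℕ} (hi : i ≤ 3) (hj : j ≤ 3) (hF : IsBihom F i j) :
    evm (phi k) F = ∑ t ∈ mons j, ∑ u ∈ mons i, cc F u t • ev k (Ll u t) := by
  have h1 : evm (phi k) F = evm (phi k) (∑ t ∈ mons j, monomial (fs t) (coeff (fs t) F)) := by
    rw [← expand hj hF.1]
  rw [h1, map_sum]
  apply Finset.sum_congr rfl
  intro t _
  unfold evm
  rw [aeval_monomial, Finsupp.prod_fintype _ _ (by intro i; simp), Fin.prod_univ_three]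
  simp only [fs_zero', fs_one', fs_two']
  show coeff (fs t) F * _ = _
  conv_lhs => rw [expand hi (hF.2 (fs t))]
  rw [Finset.sum_mul]
  apply Finset.sum_congr rfl
  intro u _
  have h5 : (monomial (fs u)) (coeff (fs u) (coeff (fs t) F)) =
      C (cc F u t) * (monomial (fs u)) 1 := by
    rw [C_mul_monomial, mul_one]; rfl
  rw [ev_Ll, smul_eq_C_mul, h5]
  ring

theorem J13 {F : S k} (hF : F ∈ reesIdeal (phi k)) (hb : IsBihom F 1 3) : F = 0 := by
  have h0 : evm (phi k) F = 0 := (mem_reesIdeal_of_hom _ hb.1).1 hF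
  rw [evm_eq_sum (by norm_num) (by norm_num) hb] at h0
  apply eq_zero_of_cc (by norm_num) (by norm_num) hb
  intro u0 hu0 t0 ht0
  obtain ⟨e, he, heq⟩ := cover13 u0 hu0 t0 ht0
  have h1 := congrArg (lin k e.2) h0
  rw [map_sum, map_zero] at h1
  have h2 : ∀ t ∈ mons 3, lin k e.2 (∑ u ∈ mons 1, cc F u t • ev k (Ll u t)) =
      if t = t0 then cc F u0 t0 else 0 := by
    intro t ht
    rw [map_sum]
    have h3 : ∀ u ∈ mons 1, lin k e.2 (cc F u t • ev k (Ll u t)) =
        if u = u0 then (if t = t0 then cc F u0 t0 else 0) else 0 := by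
      intro u hu
      rw [map_smul, lin_apply_ev, check13 e he u hu t ht, heq]
      by_cases hu' : u = u0
      · by_cases ht' : t = t0
        · subst hu'; subst ht'; simp
        · have : ¬ ((u0, t0) = (u, t)) := by
            intro h; exact ht' (Prod.mk.inj h).2.symm
          rw [if_neg this, if_neg ht']; simp
      · have : ¬ ((u0, t0) = (u, t)) := by
          intro h; exact hu' (Prod.mk.inj h).1.symm
        rw [if_neg this, if_neg hu']; simp
    rw [Finset.sum_congr rfl h3, Finset.sum_ite_eq' (mons 1) u0, if_pos hu0]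
  rw [Finset.sum_congr rfl h2, Finset.sum_ite_eq' (mons 3) t0, if_pos ht0] at h1
  exact h1

theorem J22 {F : S k} (hF : F ∈ reesIdeal (phi k)) (hb : IsBihom F 2 2)
    (hfree : cc F (0, 1, 1) (0, 1, 1) = 0) : F = 0 := by
  have h0 : evm (phi k) F = 0 := (mem_reesIdeal_of_hom _ hb.1).1 hF
  rw [evm_eq_sum (by norm_num) (by norm_num) hb] at h0
  apply eq_zero_of_cc (by norm_num) (by norm_num) hb
  intro u0 hu0 t0 ht0
  rcases cover22 u0 hu0 t0 ht0 with hfr | ⟨e, he, heq⟩
  · obtain ⟨h1, h2⟩ := Prod.mk.inj hfr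
    subst h1; subst h2; exact hfree
  have h1 := congrArg (lin k e.2) h0
  rw [map_sum, map_zero] at h1
  have h2 : ∀ t ∈ mons 2, lin k e.2 (∑ u ∈ mons 2, cc F u t • ev k (Ll u t)) =
      if t = t0 then cc F u0 t0 else 0 := by
    intro t ht
    rw [map_sum]
    have h3 : ∀ u ∈ mons 2, lin k e.2 (cc F u t • ev k (Ll u t)) =
        if u = u0 then (if t = t0 then cc F u0 t0 else 0) else 0 := by
      intro u hu
      rw [map_smul, lin_apply_ev, check22 e he u hu t ht, heq]
      have hextra : cc F u t • (((if (u, t) = ((0, 1, 1), (0, 1, 1)) then hc (u0, t0) else 0 : ℤ)) : k)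
          = 0 := by
        split_ifs with h
        · obtain ⟨h1, h2⟩ := Prod.mk.inj h
          subst h1; subst h2
          rw [hfree]; simp
        · simp
      rw [Int.cast_add, smul_add, hextra, add_zero]
      by_cases hu' : u = u0
      · by_cases ht' : t = t0
        · subst hu'; subst ht'; simp
        · have : ¬ ((u0, t0) = (u, t)) := by
            intro h; exact ht' (Prod.mk.inj h).2.symm
          rw [if_neg this, if_neg ht']; simp
      · have : ¬ ((u0, t0) = (u, t)) := by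
          intro h; exact hu' (Prod.mk.inj h).1.symm
        rw [if_neg this, if_neg hu']; simp
    rw [Finset.sum_congr rfl h3, Finset.sum_ite_eq' (mons 2) u0, if_pos hu0]
  rw [Finset.sum_congr rfl h2, Finset.sum_ite_eq' (mons 2) t0, if_pos ht0] at h1
  exact h1

end Pool.Agent.Q29.RS
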